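import Mathlib

/-!
# Stream B, job Abl: an abstract limit lemma for sums with uniformly small tails (about 80 lines)

LOWER BOUND: for every finite `T`: `∑_{k ∈ T} c k = lim_R ∑_{k ∈ T} a R k` (`tendsto_finset_sum`) and the sums are `≤ tot R`.  So for every `m < ∑' c` (`ENNReal.tsum_eq_iSup_sum`, `lt_iSup_iff`) there is a finite `T` with
`m < ∑_T c`, so eventually `m < ∑_T a R ≤ tot R` (`Filter.Tendsto.eventually_gt_const` / `lt_mem_nhds`).
UPPER BOUND: for `r + 1 ≤ R`: `tot R ≤ ∑_{k ∈ fin r} a R k + ε r ≤ ∑_{k ∈ fin r} c k + ε r ≤ ∑' c + ε r` (`ENNReal.sum_le_tsum`).  For every `M > ∑' c`: `∑' c + ε r → ∑' c` (`Tendsto.const_add`, `add_zero`), so for some `r`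
`∑' c + ε r < M`, so for all `R ≥ r + 1`: `tot R < M`.
Conclude with `tendsto_order.2`.
-/

set_option autoImplicit false

open Finset

namespace IPC

theorem tendsto_tsum_of {κ : Type} (a : ℕ → κ → ENNReal) (c : κ → ENNReal) (tot : ℕ → ENNReal)
    (fin : ℕ → Finset κ) (ε : ℕ → ENNReal)
    (h1 : ∀ k, Filter.Tendsto (fun R => a R k) Filter.atTop (nhds (c k)))
    (h2 : ∀ R (T : Finset κ), ∑ k ∈ T, a R k ≤ tot R)
    (h3 : ∃ r₀, ∀ r R, r₀ ≤ r → r + 1 ≤ R → tot R ≤ ∑ k ∈ fin r, a R k + ε r)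
    (h4 : ∃ r₀, ∀ r R, r₀ ≤ r → r + 1 ≤ R → ∀ k ∈ fin r, a R k ≤ c k)
    (h5 : Filter.Tendsto ε Filter.atTop (nhds 0)) :
    Filter.Tendsto tot Filter.atTop (nhds (∑' k, c k)) := by
  rw [tendsto_order]
  constructor
  · intro m hm
    rw [ENNReal.tsum_eq_iSup_sum] at hm
    obtain ⟨T, hT⟩ := lt_iSup_iff.1 hm
    have h6 : Filter.Tendsto (fun R => ∑ k ∈ T, a R k) Filter.atTop (nhds (∑ k ∈ T, c k)) :=
      tendsto_finsetSum T fun k _ => h1 k
    filter_upwards [h6.eventually_const_lt hT] with R hR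
    exact lt_of_lt_of_le hR (h2 R T)
  · intro M hM
    obtain ⟨r1, h3⟩ := h3
    obtain ⟨r2, h4⟩ := h4
    have h6 : Filter.Tendsto (fun r => ∑' k, c k + ε r) Filter.atTop (nhds (∑' k, c k)) := by
      have h7 := h5.const_add (∑' k, c k)
      rwa [add_zero] at h7
    obtain ⟨r, hr, hr1, hr2⟩ := ((h6.eventually_lt_const hM).and
      ((Filter.eventually_ge_atTop r1).and (Filter.eventually_ge_atTop r2))).exists
    filter_upwards [Filter.eventually_ge_atTop (r + 1)] with R hR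
    refine lt_of_le_of_lt ?_ hr
    refine (h3 r R hr1 hR).trans (add_le_add ?_ le_rfl)
    exact (Finset.sum_le_sum (h4 r R hr2 hR)).trans (ENNReal.sum_le_tsum _)

end IPC
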