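import Pool.Agent.Lib.MP_25e40f_pr.B.Abs

/-!
# Stream B, job Abr: the alternating series (about 150 lines)

`alt_series` (real analysis): `r : ℕ → ENNReal`, `Y n = r n + r (n+1)`, `∑' Y ≠ ⊤`.  Then all `Y n ≠ ⊤`, `r n ≠ ⊤`; `r n ≤ Y n → 0` (`ENNReal.tendsto_atTop_zero_of_tsum_ne_top`), and
`∑_{n < N} (-1)^n (Y n).toReal = (r 0).toReal - (-1)^N (r N).toReal` (induction) `→ (r 0).toReal`; the series is absolutely summable (`ENNReal.summable_toReal`), so its sum is `(r 0).toReal`
(`HasSum.tendsto_sum_nat`, `tendsto_nhds_unique`).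
`iter_abstract`: `RR_step` and `alt_series` with `r n = RR n F A`.
`iter_g`: exchange of the sums.  `a n u := (ZZ n F A u * h u).toReal`; `(∑' u, ZZ n F A u * h u).toReal = ∑' u, a n u` (`ENNReal.tsum_toReal_eq`, all terms finite), the family `(n, u) ↦ (-1)^n a n u` is summable on `ℕ × V`
(its absolute values come from the ENNReal double sum, `ENNReal.tsum_prod`, `ENNReal.summable_toReal`), so `∑' n, ∑' u, (-1)^n a n u = ∑' u, ∑' n, (-1)^n a n u` (`Summable.tsum_comm`), and
`∑' n, (-1)^n (ZZ n F A u).toReal * (h u).toReal = (∑' n, (-1)^n (ZZ n F A u).toReal) * (h u).toReal` (`tsum_mul_right`).  The case `h u = 0` or `⊤` needs no care: `ENNReal.toReal_mul`, and `tsum_mul_right` holds always in a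
division ring.
-/

set_option autoImplicit false
set_option linter.unusedSectionVars false

noncomputable section

open Finset
open scoped Classical

namespace IPC

variable {V : Type} [DecidableEq V]

theorem alt_series (r : ℕ → ENNReal) (h : ∑' n, (r n + r (n + 1)) ≠ ⊤) :
    (r 0).toReal = ∑' n : ℕ, (-1) ^ n * (r n + r (n + 1)).toReal := by
  have hY : ∀ n, r n + r (n + 1) ≠ ⊤ := fun n => ENNReal.ne_top_of_tsum_ne_top h n
  have hr : ∀ n, r n ≠ ⊤ := fun n => (ENNReal.add_ne_top.1 (hY n)).1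
  have hs : Summable (fun n => (r n + r (n + 1)).toReal) := ENNReal.summable_toReal h
  have hs2 : Summable (fun n : ℕ => (-1 : ℝ) ^ n * (r n + r (n + 1)).toReal) := by
    refine Summable.of_norm_bounded hs fun n => ?_
    rw [norm_mul, norm_pow, norm_neg, norm_one, one_pow, one_mul,
      Real.norm_of_nonneg ENNReal.toReal_nonneg]
  have hpart : ∀ N : ℕ, ∑ n ∈ range N, (-1 : ℝ) ^ n * (r n + r (n + 1)).toReal =
      (r 0).toReal - (-1) ^ N * (r N).toReal := by
    intro N
    induction N with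
    | zero => simp
    | succ N ih =>
      rw [sum_range_succ, ih, ENNReal.toReal_add (hr N) (hr (N + 1)), pow_succ]
      ring
  have h0 : Filter.Tendsto (fun n => (r n).toReal) Filter.atTop (nhds 0) := by
    have h1 : Filter.Tendsto r Filter.atTop (nhds 0) :=
      tendsto_of_tendsto_of_tendsto_of_le_of_le tendsto_const_nhds
        (ENNReal.tendsto_atTop_zero_of_tsum_ne_top h) (fun _ => zero_le) (fun n => le_self_add)
    have h2 := (ENNReal.tendsto_toReal ENNReal.zero_ne_top).comp h1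
    rw [ENNReal.toReal_zero] at h2
    exact h2
  have h1 : Filter.Tendsto (fun N : ℕ => (-1 : ℝ) ^ N * (r N).toReal) Filter.atTop (nhds 0) := by
    refine squeeze_zero_norm (fun N => ?_) h0
    rw [norm_mul, norm_pow, norm_neg, norm_one, one_pow, one_mul,
      Real.norm_of_nonneg ENNReal.toReal_nonneg]
  have h2 := hs2.hasSum.tendsto_sum_nat
  have h3 : Filter.Tendsto (fun N => ∑ n ∈ range N, (-1 : ℝ) ^ n * (r n + r (n + 1)).toReal)
      Filter.atTop (nhds ((r 0).toReal)) := by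
    have h4 : (fun N => ∑ n ∈ range N, (-1 : ℝ) ^ n * (r n + r (n + 1)).toReal) =
        fun N => (r 0).toReal - (-1) ^ N * (r N).toReal := funext hpart
    rw [h4]
    have h5 := (tendsto_const_nhds (x := (r 0).toReal) (f := Filter.atTop (α := ℕ))).sub h1
    rw [sub_zero] at h5
    exact h5
  exact tendsto_nhds_unique h3 h2

theorem iter_abstract (G : PG V) (p : ℝ) (T : Finset V → Set V → ENNReal) (h : V → ENNReal)
    (𝒞 : Finset V → Set V → Prop) (h𝒞 : ∀ (x : V) (S : Finset V), 𝒞 {x} (S : Set V))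
    (hT : ∀ F A, 𝒞 F A → T F A + stepE G p T F A = ∑' u, ZZ G p 0 F A u * h u)
    (F : Finset V) (A : Set V) (hFA : 𝒞 F A) (hfin : ∑' n, ∑' u, ZZ G p n F A u * h u ≠ ⊤) :
    T F A ≠ ⊤ ∧ (T F A).toReal = ∑' n : ℕ, (-1) ^ n * (∑' u, ZZ G p n F A u * h u).toReal := by
  have hstep : ∀ n, RR G p T n F A + RR G p T (n + 1) F A = ∑' u, ZZ G p n F A u * h u :=
    fun n => RR_step G p T h 𝒞 h𝒞 hT n F A hFA
  have hfin2 : ∑' n, (RR G p T n F A + RR G p T (n + 1) F A) ≠ ⊤ := by
    rw [tsum_congr hstep]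
    exact hfin
  constructor
  · exact (ENNReal.add_ne_top.1 (ENNReal.ne_top_of_tsum_ne_top hfin2 0)).1
  · have h1 := alt_series (fun n => RR G p T n F A) hfin2
    refine Eq.trans h1 (tsum_congr fun n => ?_)
    show (-1 : ℝ) ^ n * (RR G p T n F A + RR G p T (n + 1) F A).toReal = _
    rw [hstep]

theorem iter_g (G : PG V) (p : ℝ) (T : Finset V → Set V → ENNReal) (h : V → ENNReal)
    (𝒞 : Finset V → Set V → Prop) (h𝒞 : ∀ (x : V) (S : Finset V), 𝒞 {x} (S : Set V))
    (hT : ∀ F A, 𝒞 F A → T F A + stepE G p T F A = ∑' u, ZZ G p 0 F A u * h u)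
    (F : Finset V) (A : Set V) (hFA : 𝒞 F A) (hfin : ∑' n, ∑' u, ZZ G p n F A u * h u ≠ ⊤) :
    Summable (fun u => (∑' n : ℕ, (-1) ^ n * (ZZ G p n F A u).toReal) * (h u).toReal) ∧
      (T F A).toReal = ∑' u, (∑' n : ℕ, (-1) ^ n * (ZZ G p n F A u).toReal) * (h u).toReal := by
  have h1 : ∀ n, ∑' u, ZZ G p n F A u * h u ≠ ⊤ := fun n => ENNReal.ne_top_of_tsum_ne_top hfin n
  have h2 : ∀ n u, ZZ G p n F A u * h u ≠ ⊤ := fun n u => ENNReal.ne_top_of_tsum_ne_top (h1 n) u
  have hs : Summable (fun q : ℕ × V => (ZZ G p q.1 F A q.2 * h q.2).toReal) := by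
    refine ENNReal.summable_toReal ?_
    have h3 := ENNReal.tsum_prod (f := fun (n : ℕ) (u : V) => ZZ G p n F A u * h u)
    rw [h3]
    exact hfin
  have hf : Summable (fun q : ℕ × V => (-1 : ℝ) ^ q.1 * (ZZ G p q.1 F A q.2 * h q.2).toReal) := by
    refine Summable.of_norm_bounded hs fun q => ?_
    rw [norm_mul, norm_pow, norm_neg, norm_one, one_pow, one_mul,
      Real.norm_of_nonneg ENNReal.toReal_nonneg]
  have hn : ∀ n : ℕ, ∑' u, (-1 : ℝ) ^ n * (ZZ G p n F A u * h u).toReal =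
      (-1) ^ n * (∑' u, ZZ G p n F A u * h u).toReal := by
    intro n
    rw [ENNReal.tsum_toReal_eq (h2 n)]
    exact tsum_mul_left
  have hu : ∀ u : V, ∑' n : ℕ, (-1 : ℝ) ^ n * (ZZ G p n F A u * h u).toReal =
      (∑' n : ℕ, (-1) ^ n * (ZZ G p n F A u).toReal) * (h u).toReal := by
    intro u
    rw [← tsum_mul_right]
    refine tsum_congr fun n => ?_
    rw [ENNReal.toReal_mul, mul_assoc]
  constructor
  · have h3 := hf.prod_symm.prod
    have h4 : (fun u : V => (∑' n : ℕ, (-1) ^ n * (ZZ G p n F A u).toReal) * (h u).toReal) =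
        fun u : V => ∑' n : ℕ, (-1 : ℝ) ^ n * (ZZ G p n F A u * h u).toReal :=
      funext fun u => (hu u).symm
    rw [h4]
    exact h3
  · rw [(iter_abstract G p T h 𝒞 h𝒞 hT F A hFA hfin).2, ← tsum_congr hn, ← tsum_congr hu]
    exact (Summable.tsum_comm
      (f := fun (n : ℕ) (u : V) => (-1 : ℝ) ^ n * (ZZ G p n F A u * h u).toReal) hf).symm

end IPC
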