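import Pool.Agent.Lib.MP_25e40f_pr.ZDef

/-!
# Stream B, job Abs: abstract iteration (about 130 lines)

`RR 0 = T`, `RR (n+1) F A = stepE G p (RR n) F A`.
`stepE_add`: `stepE (T + T') = stepE T + stepE T'` (`mul_add`, `ENNReal.tsum_add`, `if`-splitting).
`stepE_sum`: `stepE G p (fun F A => ∑' u, ZZ n F A u * h u) F A = ∑' u, ZZ (n+1) F A u * h u` (`ENNReal.tsum_mul_right`, `ENNReal.tsum_mul_left`, `ENNReal.tsum_comm` three times, `mul_assoc`; the definition of `ZZ (n+1)`).
`RR_step`: for all `n` and all `(F, A)` with `𝒞 F A`: `RR n F A + RR (n+1) F A = ∑' u, ZZ n F A u * h u`: induction on `n`; `n + 1`: `stepE (RR n + RR (n+1)) F A = stepE (fun F A => ∑' u, ZZ n F A u * h u) F A` because the arguments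
of `T` in `stepE` are `({x2}, S)`, which satisfy `𝒞`  (`stepE_congr`: `stepE` only uses the values at `({x2}, (S : Set V))`).
-/

set_option autoImplicit false
set_option linter.unusedSectionVars false

noncomputable section

open Finset
open scoped Classical

namespace IPC

variable {V : Type} [DecidableEq V]

/-- iterated steps -/
def RR (G : PG V) (p : ℝ) (T : Finset V → Set V → ENNReal) : ℕ → Finset V → Set V → ENNReal
  | 0 => T
  | n + 1 => fun F A => stepE G p (RR G p T n) F A

theorem stepE_congr (G : PG V) (p : ℝ) {T T' : Finset V → Set V → ENNReal}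
    (h : ∀ (x : V) (S : Finset V), T {x} (S : Set V) = T' {x} (S : Set V)) (F : Finset V) (A : Set V) :
    stepE G p T F A = stepE G p T' F A := by
  unfold stepE
  refine tsum_congr fun x => tsum_congr fun x2 => ?_
  split_ifs with hx
  · exact tsum_congr fun S => by rw [h x2 S]
  · rfl

theorem stepE_add (G : PG V) (p : ℝ) (T T' : Finset V → Set V → ENNReal) (F : Finset V) (A : Set V) :
    stepE G p (fun F A => T F A + T' F A) F A = stepE G p T F A + stepE G p T' F A := by
  unfold stepE
  rw [← ENNReal.tsum_add]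
  refine tsum_congr fun x => ?_
  rw [← ENNReal.tsum_add]
  refine tsum_congr fun x2 => ?_
  split_ifs with hx
  · rw [← ENNReal.tsum_add]
    exact tsum_congr fun S => mul_add _ _ _
  · rw [add_zero]

theorem stepE_sum (G : PG V) (p : ℝ) (n : ℕ) (h : V → ENNReal) (F : Finset V) (A : Set V) :
    stepE G p (fun F A => ∑' u, ZZ G p n F A u * h u) F A = ∑' u, ZZ G p (n + 1) F A u * h u := by
  have h1 : ∀ u, ZZ G p (n + 1) F A u * h u = ∑' x, ∑' x2, if x2 ∈ G.nb x then
      ∑' S : Finset V, ENNReal.ofReal (G.cc p F A (x, x2) S) * (ZZ G p n {x2} (S : Set V) u * h u) else 0 := by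
    intro u
    show (∑' x, ∑' x2, if x2 ∈ G.nb x then
      ∑' S : Finset V, ENNReal.ofReal (G.cc p F A (x, x2) S) * ZZ G p n {x2} (S : Set V) u else 0) * h u = _
    rw [← ENNReal.tsum_mul_right]
    refine tsum_congr fun x => ?_
    rw [← ENNReal.tsum_mul_right]
    refine tsum_congr fun x2 => ?_
    split_ifs with hx
    · rw [← ENNReal.tsum_mul_right]
      exact tsum_congr fun S => mul_assoc _ _ _
    · rw [zero_mul]
  simp only [h1]
  rw [ENNReal.tsum_comm]
  unfold stepE
  refine tsum_congr fun x => ?_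
  rw [ENNReal.tsum_comm]
  refine tsum_congr fun x2 => ?_
  split_ifs with hx
  · rw [ENNReal.tsum_comm]
    refine tsum_congr fun S => ?_
    rw [ENNReal.tsum_mul_left]
  · rw [tsum_zero]

theorem RR_step (G : PG V) (p : ℝ) (T : Finset V → Set V → ENNReal) (h : V → ENNReal)
    (𝒞 : Finset V → Set V → Prop) (h𝒞 : ∀ (x : V) (S : Finset V), 𝒞 {x} (S : Set V))
    (hT : ∀ F A, 𝒞 F A → T F A + stepE G p T F A = ∑' u, ZZ G p 0 F A u * h u) (n : ℕ)
    (F : Finset V) (A : Set V) (hFA : 𝒞 F A) :
    RR G p T n F A + RR G p T (n + 1) F A = ∑' u, ZZ G p n F A u * h u := by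
  induction n generalizing F A with
  | zero => exact hT F A hFA
  | succ n ih =>
    have h1 : RR G p T (n + 1) F A = stepE G p (RR G p T n) F A := rfl
    have h2 : RR G p T (n + 1 + 1) F A = stepE G p (RR G p T (n + 1)) F A := rfl
    rw [h1, h2, ← stepE_add, ← stepE_sum]
    exact stepE_congr G p (fun x S => ih {x} (S : Set V) (h𝒞 x S)) F A

end IPC
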