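import Pool.Agent.Lib.MP_25e40f_pr.B.Loc

/-!
# Stream B, job Arm: leaving a box of the exhaustion (about 130 lines)

`arm_out`: let `x ∈ Λ_r`, `R ≥ r + 1`, `ω ⊆ ein Λ_R`, `Conn ω x y`, `y ∉ Λ_r`.  `Conn_exit_edge` with `X = Λ_r` (as a set): `a ∈ Λ_r`, `b ∉ Λ_r`, `s(a, b) ∈ ω` and `Conn (ω.filter inside Λ_r) x a`.
  `s(a, b) ∈ ein Λ_R`, so `b ∈ G.nb a ⊆ Λ_(r+1)` (`G.step`); so with `ω' = ω ∩ ein Λ_(r+1)`: `s(a, b) ∈ ω'`, and the edges of `ω` inside `Λ_r` are in `ein Λ_(r+1)` too (they are edges of `ein Λ_R` with both endpoints in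
  `Λ_r ⊆ Λ_(r+1)`: `mem_ein`).  So `Conn ω' x b`, `b ∈ Λ_(r+1) \ Λ_r`.   Hence (`Pr_mono`, `Pr_restrict` with `E₁ = ein Λ_(r+1) ⊆ ein Λ_R`: the event `∃ y ∈ Λ_(r+1) \ Λ_r, Conn (ω ∩ ein Λ_(r+1)) x y` depends on `ω ∩ E₁` only)
  `Pr p (ein Λ_R) (∃ y, y ∉ Λ_r ∧ Conn ω x y) ≤ G.arm p x r`.
`out_F`: union bound over `f ∈ F` (`Pr_exists_le`, `Pr_mono`): `¬ Cl ω F ⊆ Λ_r → ∃ f ∈ F, ∃ y, y ∉ Λ_r ∧ Conn ω f y`.
`exists_Lam`: a finite set is contained in some `Λ_r` (`Finset.induction_on`, `G.cover`, `Lam_mono'`).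
`arm_sum_tendsto`: finite sum of `NoPerc` limits (`tendsto_finset_sum`).
-/

set_option autoImplicit false
set_option linter.unusedSectionVars false

noncomputable section

open Finset
open scoped Classical

namespace IPC

variable {V : Type} [DecidableEq V]

private theorem Arm_cross (G : PG V) {x y : V} {r R : ℕ} (hx : x ∈ G.Lam r)
    {ω : Finset (Sym2 V)} (hω : ω ⊆ G.ein (G.Lam R)) (hy : y ∉ G.Lam r) (h : Conn ω x y) :
    ∃ z ∈ G.Lam (r + 1) \ G.Lam r, Conn (ω ∩ G.ein (G.Lam (r + 1))) x z := by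
  obtain ⟨a, b, ha, hb, hab, hc⟩ := Conn_exit_edge (G.Lam r : Set V) (Finset.mem_coe.2 hx)
    (fun h => hy (Finset.mem_coe.1 h)) h
  rw [Finset.mem_coe] at ha hb
  have h1 := (mem_ein G).1 (hω hab)
  have hb1 : b ∈ G.Lam (r + 1) := G.step r a ha h1.2.2
  refine ⟨b, Finset.mem_sdiff.2 ⟨hb1, hb⟩, ?_⟩
  have hsub : (ω.filter fun e => ∀ c ∈ e, c ∈ (G.Lam r : Set V)) ⊆ ω ∩ G.ein (G.Lam (r + 1)) := by
    intro e
    induction e using Sym2.ind with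
    | _ c d =>
      intro he
      rw [Finset.mem_filter] at he
      have hc1 : c ∈ G.Lam r := Finset.mem_coe.1 (he.2 c (Sym2.mem_mk_left c d))
      have hd1 : d ∈ G.Lam r := Finset.mem_coe.1 (he.2 d (Sym2.mem_mk_right c d))
      have h2 := (mem_ein G).1 (hω he.1)
      exact Finset.mem_inter.2 ⟨he.1, (mem_ein G).2 ⟨G.mono r hc1, G.mono r hd1, h2.2.2⟩⟩
  have hab' : s(a, b) ∈ ω ∩ G.ein (G.Lam (r + 1)) :=
    Finset.mem_inter.2 ⟨hab, (mem_ein G).2 ⟨G.mono r ha, hb1, h1.2.2⟩⟩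
  exact Conn_trans (Conn_mono hsub hc) (Conn_edge hab')

theorem arm_out (G : PG V) {p : ℝ} (hp0 : 0 ≤ p) (hp1 : p ≤ 1) {x : V} {r R : ℕ} (hx : x ∈ G.Lam r)
    (hR : r + 1 ≤ R) : Pr p (G.ein (G.Lam R)) (fun ω => ∃ y, y ∉ G.Lam r ∧ Conn ω x y) ≤ G.arm p x r := by
  have hE : G.ein (G.Lam (r + 1)) ⊆ G.ein (G.Lam R) := ein_mono G (Lam_mono' G hR)
  have h1 : Pr p (G.ein (G.Lam R)) (fun ω => ∃ y ∈ G.Lam (r + 1) \ G.Lam r,
      Conn (ω ∩ G.ein (G.Lam (r + 1))) x y) = G.arm p x r := by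
    rw [Pr_restrict p hE]
    · unfold PG.arm
      apply Pr_congr
      intro ω hω
      rw [Finset.inter_eq_left.2 hω]
    · intro ω _
      rw [Finset.inter_assoc, Finset.inter_self]
  rw [← h1]
  apply Pr_mono hp0 hp1
  rintro ω hω ⟨y, hy, h⟩
  exact Arm_cross G hx hω hy h

theorem out_F (G : PG V) {p : ℝ} (hp0 : 0 ≤ p) (hp1 : p ≤ 1) {F : Finset V} {r R : ℕ} (hF : F ⊆ G.Lam r)
    (hR : r + 1 ≤ R) : Pr p (G.ein (G.Lam R)) (fun ω => ¬ Cl ω F ⊆ (G.Lam r : Set V)) ≤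
      ∑ f ∈ F, G.arm p f r := by
  calc Pr p (G.ein (G.Lam R)) (fun ω => ¬ Cl ω F ⊆ (G.Lam r : Set V))
      ≤ Pr p (G.ein (G.Lam R)) (fun ω => ∃ f ∈ F, ∃ y, y ∉ G.Lam r ∧ Conn ω f y) := by
        apply Pr_mono hp0 hp1
        intro ω _ h
        rw [Set.not_subset] at h
        obtain ⟨y, ⟨f, hf, hc⟩, hy⟩ := h
        exact ⟨f, hf, y, fun h => hy (Finset.mem_coe.2 h), hc⟩
    _ ≤ ∑ f ∈ F, Pr p (G.ein (G.Lam R)) (fun ω => ∃ y, y ∉ G.Lam r ∧ Conn ω f y) :=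
        Pr_exists_le hp0 hp1 _ F (fun f ω => ∃ y, y ∉ G.Lam r ∧ Conn ω f y)
    _ ≤ ∑ f ∈ F, G.arm p f r := Finset.sum_le_sum fun f hf => arm_out G hp0 hp1 (hF hf) hR

theorem exists_Lam (G : PG V) (F : Finset V) : ∃ r, F ⊆ G.Lam r := by
  induction F using Finset.induction_on with
  | empty => exact ⟨0, Finset.empty_subset _⟩
  | insert a D _ ih =>
    obtain ⟨r, hr⟩ := ih
    obtain ⟨r', hr'⟩ := G.cover a
    refine ⟨max r r', Finset.insert_subset (Lam_mono' G (le_max_right _ _) hr') ?_⟩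
    exact hr.trans (Lam_mono' G (le_max_left _ _))

theorem arm_nonneg (G : PG V) {p : ℝ} (hp0 : 0 ≤ p) (hp1 : p ≤ 1) (x : V) (r : ℕ) : 0 ≤ G.arm p x r :=
  Pr_nonneg hp0 hp1 _ _

theorem arm_sum_tendsto (G : PG V) {p : ℝ} (hN : G.NoPerc p) (F : Finset V) :
    Filter.Tendsto (fun r => ∑ f ∈ F, G.arm p f r) Filter.atTop (nhds 0) := by
  have h := tendsto_finsetSum F (fun f _ => hN f)
  rwa [Finset.sum_const_zero] at h

end IPC
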