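import Pool.Agent.Lib.MP_25e40f_pr.A.Prb
import Pool.Agent.Lib.MP_25e40f_pr.A.Cnn

/-! MP_25e40f_pr, stream B (lace expansion): basic API of clusters, `off`, `ConnOff`, `Thru`, `EP` (all proved). -/

set_option autoImplicit false
set_option linter.unusedSectionVars false

open Finset
open scoped Classical

namespace IPC

variable {V : Type} [DecidableEq V]

/-- if from the points of `T` the steps stay in `T` and belong to `ω'`, connections can be transferred -/
theorem Conn_transfer {ω ω' : Finset (Sym2 V)} (T : Set V)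
    (hT : ∀ a b, s(a, b) ∈ ω → a ∈ T → b ∈ T ∧ s(a, b) ∈ ω') {x y : V} (hx : x ∈ T) (h : Conn ω x y) :
    Conn ω' x y ∧ y ∈ T := by
  induction h with
  | refl => exact ⟨Conn_refl _ _, hx⟩
  | tail _ h2 ih => exact ⟨Conn_trans ih.1 (Conn_edge (hT _ _ h2 ih.2).2), (hT _ _ h2 ih.2).1⟩

theorem mem_off {ω : Finset (Sym2 V)} {A : Set V} {e : Sym2 V} : e ∈ off ω A ↔ e ∈ ω ∧ ∀ a ∈ e, a ∉ A := by
  unfold off
  rw [Finset.mem_filter]

theorem mem_off' {ω : Finset (Sym2 V)} {A : Set V} {x y : V} :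
    s(x, y) ∈ off ω A ↔ s(x, y) ∈ ω ∧ x ∉ A ∧ y ∉ A := by
  rw [mem_off]
  simp only [Sym2.mem_iff, forall_eq_or_imp, forall_eq]

theorem off_subset (ω : Finset (Sym2 V)) (A : Set V) : off ω A ⊆ ω := Finset.filter_subset _ _

theorem off_mono {ω ω' : Finset (Sym2 V)} (h : ω ⊆ ω') (A : Set V) : off ω A ⊆ off ω' A := by
  intro e he
  rw [mem_off] at he ⊢
  exact ⟨h he.1, he.2⟩

theorem off_anti (ω : Finset (Sym2 V)) {A B : Set V} (h : A ⊆ B) : off ω B ⊆ off ω A := by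
  intro e he
  rw [mem_off] at he ⊢
  exact ⟨he.1, fun a ha haA => he.2 a ha (h haA)⟩

theorem off_inter (ω E : Finset (Sym2 V)) (A : Set V) : off (ω ∩ E) A = ω ∩ off E A := by
  ext e
  rw [mem_off, Finset.mem_inter, Finset.mem_inter, mem_off]
  tauto

theorem off_off (ω : Finset (Sym2 V)) (A : Set V) : off (off ω A) A = off ω A := by
  ext e
  rw [mem_off, mem_off]
  tauto

theorem off_univ (ω : Finset (Sym2 V)) : off ω (Set.univ : Set V) = ∅ := by
  rw [Finset.eq_empty_iff_forall_notMem]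
  intro e he
  rw [mem_off] at he
  induction e using Sym2.ind with
  | _ x y => exact he.2 x (Sym2.mem_mk_left x y) (Set.mem_univ _)

theorem mem_Cl {ω : Finset (Sym2 V)} {F : Finset V} {y : V} : y ∈ Cl ω F ↔ ∃ f ∈ F, Conn ω f y := Iff.rfl

theorem subset_Cl {ω : Finset (Sym2 V)} {F : Finset V} {f : V} (hf : f ∈ F) : f ∈ Cl ω F :=
  ⟨f, hf, Conn_refl _ _⟩

theorem Cl_mono {ω ω' : Finset (Sym2 V)} (h : ω ⊆ ω') (F : Finset V) : Cl ω F ⊆ Cl ω' F := by
  rintro y ⟨f, hf, hc⟩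
  exact ⟨f, hf, Conn_mono h hc⟩

theorem Cl_conn {ω : Finset (Sym2 V)} {F : Finset V} {x y : V} (hx : x ∈ Cl ω F) (h : Conn ω x y) :
    y ∈ Cl ω F := by
  obtain ⟨f, hf, hc⟩ := hx
  exact ⟨f, hf, Conn_trans hc h⟩

theorem Cl_edge {ω : Finset (Sym2 V)} {F : Finset V} {x y : V} (hx : x ∈ Cl ω F) (h : s(x, y) ∈ ω) :
    y ∈ Cl ω F := Cl_conn hx (Conn_edge h)

/-- the cluster is contained in `F` and the touched vertices -/
theorem Cl_subset (ω : Finset (Sym2 V)) (F : Finset V) : Cl ω F ⊆ ((F ∪ VV ω : Finset V) : Set V) := by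
  rintro y ⟨f, hf, hc⟩
  rw [Finset.mem_coe, Finset.mem_union]
  by_cases h : f = y
  · subst h
    exact Or.inl hf
  · exact Or.inr (Conn_mem_VV hc h).2

theorem VV_mono {ω ω' : Finset (Sym2 V)} (h : ω ⊆ ω') : VV ω ⊆ VV ω' := Finset.biUnion_subset_biUnion_of_subset_left _ h

/-- the cluster as a finite set -/
noncomputable def ClF (ω : Finset (Sym2 V)) (F : Finset V) : Finset V := (F ∪ VV ω).filter fun y => y ∈ Cl ω F

theorem coe_ClF (ω : Finset (Sym2 V)) (F : Finset V) : ((ClF ω F : Finset V) : Set V) = Cl ω F := by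
  ext y
  unfold ClF
  rw [Finset.coe_filter]
  exact ⟨fun h => h.2, fun h => ⟨Cl_subset ω F h, h⟩⟩

theorem mem_ClF {ω : Finset (Sym2 V)} {F : Finset V} {y : V} : y ∈ ClF ω F ↔ y ∈ Cl ω F := by
  rw [← coe_ClF, Finset.mem_coe]

/-- if both endpoints of `b` are not in the cluster of `F` without `b`, then `b` does not matter -/
theorem Conn_erase_of_Cl {ω : Finset (Sym2 V)} {F : Finset V} {x y : V} (hx : x ∉ Cl (ω.erase s(x, y)) F)
    (hy : y ∉ Cl (ω.erase s(x, y)) F) {f z : V} (hf : f ∈ F) (h : Conn ω f z) :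
    Conn (ω.erase s(x, y)) f z := by
  refine (Conn_transfer (Cl (ω.erase s(x, y)) F) ?_ (subset_Cl hf) h).1
  intro a b hab ha
  have hne : s(a, b) ≠ s(x, y) := by
    intro he
    rw [Sym2.eq_iff] at he
    rcases he with ⟨rfl, rfl⟩ | ⟨rfl, rfl⟩
    · exact hx ha
    · exact hy ha
  have h1 : s(a, b) ∈ ω.erase s(x, y) := Finset.mem_erase.2 ⟨hne, hab⟩
  exact ⟨Cl_edge ha h1, h1⟩

theorem Cl_erase_eq {ω : Finset (Sym2 V)} {F : Finset V} {x y : V} (hx : x ∉ Cl (ω.erase s(x, y)) F)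
    (hy : y ∉ Cl (ω.erase s(x, y)) F) : Cl ω F = Cl (ω.erase s(x, y)) F := by
  apply Set.Subset.antisymm
  · rintro z ⟨f, hf, hc⟩
    exact ⟨f, hf, Conn_erase_of_Cl hx hy hf hc⟩
  · exact Cl_mono (Finset.erase_subset _ _) F

theorem mem_darts {E : Finset (Sym2 V)} {q : V × V} : q ∈ darts E ↔ s(q.1, q.2) ∈ E := by
  unfold darts
  rw [Finset.mem_filter]
  refine ⟨fun h => h.2, fun h => ⟨?_, h⟩⟩
  rw [Finset.mem_biUnion]
  refine ⟨s(q.1, q.2), h, ?_⟩
  rw [Finset.mem_product]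
  simp

theorem darts_mono {E E' : Finset (Sym2 V)} (h : E ⊆ E') : darts E ⊆ darts E' := by
  intro q hq
  rw [mem_darts] at hq ⊢
  exact h hq

theorem ind_congr {P Q : Prop} (h : P ↔ Q) : ind P = ind Q := by
  rw [propext h]

theorem connOff_conn {ω : Finset (Sym2 V)} {A : Set V} {x y : V} (h : ConnOff ω A x y) : Conn ω x y :=
  Conn_mono (off_subset ω A) h.2

/-- the endpoint of a connection off `A` is not in `A` -/
theorem connOff_notMem {ω : Finset (Sym2 V)} {A : Set V} {x y : V} (h : ConnOff ω A x y) : y ∉ A := by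
  have h1 := Conn_closed (ω := off ω A) Aᶜ h.1 (fun a b hab _ => (mem_off'.1 hab).2.2) h.2
  exact h1

theorem connOff_mono {ω ω' : Finset (Sym2 V)} (hs : ω ⊆ ω') {A : Set V} {x y : V} (h : ConnOff ω A x y) :
    ConnOff ω' A x y := ⟨h.1, Conn_mono (off_mono hs A) h.2⟩

/-- starting outside a union of clusters one stays outside -/
theorem connOff_of_Cl {ω : Finset (Sym2 V)} {F : Finset V} {x y : V} (hx : x ∉ Cl ω F) (h : Conn ω x y) :
    ConnOff ω (Cl ω F) x y := by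
  refine ⟨hx, (Conn_transfer (Cl ω F)ᶜ ?_ hx h).1⟩
  intro a b hab ha
  have hb : b ∉ Cl ω F := fun hb => ha (Cl_edge hb (by rw [Sym2.eq_swap]; exact hab))
  exact ⟨hb, mem_off'.2 ⟨hab, ha, hb⟩⟩

theorem thru_univ {ω : Finset (Sym2 V)} {F : Finset V} {u : V} : Thru ω Set.univ F u ↔ AllConn ω F u := by
  constructor
  · exact fun h => h.1
  · exact fun h => ⟨h, fun f _ hf => hf.1 (Set.mem_univ _)⟩

theorem allConn_mem {ω : Finset (Sym2 V)} {F : Finset V} (hF : F.Nonempty) {u : V} (h : AllConn ω F u) :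
    u ∈ Cl ω F := by
  obtain ⟨f, hf⟩ := hF
  exact ⟨f, hf, h f hf⟩

theorem EP_mem {ω : Finset (Sym2 V)} {A : Set V} {F : Finset V} (hF : F.Nonempty) {u : V}
    (h : EP ω A F u) : u ∈ Cl ω F := allConn_mem hF h.1.1

/-- a connection from `x` to `y` either avoids the edge `{a, b}` or starts with a connection to one of its endpoints which avoids it -/
theorem Conn_erase_or {ω : Finset (Sym2 V)} {a b x y : V} (h : Conn ω x y) :
    Conn (ω.erase s(a, b)) x y ∨ Conn (ω.erase s(a, b)) x a ∨ Conn (ω.erase s(a, b)) x b := by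
  induction h with
  | refl => exact Or.inl (Conn_refl _ _)
  | tail _ h2 ih =>
    rename_i c d _
    rcases ih with ih | ih | ih
    · by_cases he : s(c, d) = s(a, b)
      · rw [Sym2.eq_iff] at he
        rcases he with ⟨rfl, rfl⟩ | ⟨rfl, rfl⟩
        · exact Or.inr (Or.inl ih)
        · exact Or.inr (Or.inr ih)
      · exact Or.inl (Conn_trans ih (Conn_edge (Finset.mem_erase.2 ⟨he, h2⟩)))
    · exact Or.inr (Or.inl ih)
    · exact Or.inr (Or.inr ih)

end IPC
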