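import Pool.Agent.Lib.MP_25e40f_pr.B.Loc

/-!
# Stream B, job Lim: infinite volume limits of increasing events (about 170 lines)

`tendsto_inc`: the sequence `Pr p (ein Λ_r) A` is monotone in `r` (`Pr_mono_E`, `ein_mono`, `Lam_mono'`), bounded by `1` (`Pr_le_one`): `tendsto_atTop_ciSup`.
`le_inc`: `le_ciSup` (bounded above by 1).
`thru_split`: `Pr(Thru A F y) = Pr(AllConn F y) - Pr(AllConn F y ∧ ∃ f ∈ F, ConnOff A f y)` (`Pr_split`: `Thru ↔ AllConn ∧ ¬ ∃ f ∈ F, ConnOff`).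
`tendsto_thru`: both events are increasing (`Conn_mono`, `connOff_mono`), `tendsto_inc` twice; the limit is `HH - HO`.
`HO_le_HH`: limits of `≤`.   `HH_le_one`.
`TE_tendsto`: `ENNReal.tendsto_ofReal`.
`HH_single`: `HH p {x} y = tau p x y` (`AllConn ω {x} y ↔ Conn ω x y`).
`TE_univ`: `HO p F univ y = 0` (the event is false: `ConnOff ω univ f y` is false; `Pr_false`; `ciSup_const`), so `TE p {x} univ y = ofReal (tau p x y)`.
`TE_add_TO`: for `F = {w}`: `HO p {w} A y = ⨆ r, Pr(ConnOff A w y)` (`ConnOff → Conn`, so the events are equal), `TE + TO = ofReal (HH - HO) + ofReal HO = ofReal HH` (`ENNReal.ofReal_add`).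
`TE_of_mem`: `w ∈ A`: `TO p A w y = 0`.
-/

set_option autoImplicit false
set_option linter.unusedSectionVars false

noncomputable section

open Finset
open scoped Classical

namespace IPC

variable {V : Type} [DecidableEq V]

private theorem Lim_bdd (G : PG V) {p : ℝ} (hp0 : 0 ≤ p) (hp1 : p ≤ 1)
    (A : Finset (Sym2 V) → Prop) :
    BddAbove (Set.range fun r => Pr p (G.ein (G.Lam r)) A) := by
  refine ⟨1, ?_⟩
  rintro _ ⟨r, rfl⟩
  exact Pr_le_one hp0 hp1 _ _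

private theorem Lim_all (F : Finset V) (y : V) : Inc (fun ω : Finset (Sym2 V) => AllConn ω F y) :=
  fun _ _ h hA f hf => Conn_mono h (hA f hf)

private theorem Lim_allO (F : Finset V) (A : Set V) (y : V) :
    Inc (fun ω : Finset (Sym2 V) => AllConn ω F y ∧ ∃ f ∈ F, ConnOff ω A f y) := by
  rintro ω ω' h ⟨h1, f, hf, h2⟩
  exact ⟨Lim_all F y ω ω' h h1, f, hf, connOff_mono h h2⟩

private theorem Lim_thru (p : ℝ) (E : Finset (Sym2 V)) (F : Finset V) (A : Set V) (y : V) :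
    Pr p E (fun ω => Thru ω A F y) = Pr p E (fun ω => AllConn ω F y) -
      Pr p E (fun ω => AllConn ω F y ∧ ∃ f ∈ F, ConnOff ω A f y) := by
  have h1 := Pr_split p E (fun ω => AllConn ω F y) (fun ω => ∃ f ∈ F, ConnOff ω A f y)
  have h2 : Pr p E (fun ω => Thru ω A F y) =
      Pr p E (fun ω => AllConn ω F y ∧ ¬ ∃ f ∈ F, ConnOff ω A f y) := by
    refine Pr_congr p E fun ω _ => ?_
    constructor
    · rintro ⟨h3, h4⟩
      refine ⟨h3, ?_⟩
      rintro ⟨f, hf, h5⟩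
      exact h4 f hf h5
    · rintro ⟨h3, h4⟩
      exact ⟨h3, fun f hf h5 => h4 ⟨f, hf, h5⟩⟩
  rw [h2]
  linarith

private theorem Lim_single (G : PG V) (p : ℝ) (x y : V) : G.HH p {x} y = G.tau p x y := by
  unfold PG.HH PG.tau PG.tauD
  have h1 : ∀ r, Pr p (G.ein (G.Lam r)) (fun ω => AllConn ω {x} y) =
      Pr p (G.ein (G.Lam r)) (fun ω => Conn ω x y) := by
    intro r
    refine Pr_congr p _ fun ω _ => ?_
    constructor
    · intro h
      exact h x (Finset.mem_singleton_self x)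
    · intro h f hf
      rw [Finset.mem_singleton] at hf
      rw [hf]
      exact h
  simp only [h1]

private theorem Lim_univ (G : PG V) (p : ℝ) (F : Finset V) (y : V) :
    G.HO p F Set.univ y = 0 := by
  unfold PG.HO
  have h1 : ∀ r, Pr p (G.ein (G.Lam r))
      (fun ω => AllConn ω F y ∧ ∃ f ∈ F, ConnOff ω Set.univ f y) = 0 := by
    intro r
    refine Pr_false p _ fun ω _ => ?_
    rintro ⟨_, f, _, h⟩
    exact h.1 (Set.mem_univ _)
  simp only [h1]
  exact ciSup_const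

theorem tendsto_inc (G : PG V) {p : ℝ} (hp0 : 0 ≤ p) (hp1 : p ≤ 1) {A : Finset (Sym2 V) → Prop} (hA : Inc A) :
    Filter.Tendsto (fun r => Pr p (G.ein (G.Lam r)) A) Filter.atTop
      (nhds (⨆ r, Pr p (G.ein (G.Lam r)) A)) := by
  refine tendsto_atTop_ciSup ?_ (Lim_bdd G hp0 hp1 A)
  intro r R h
  exact Pr_mono_E hp0 hp1 (ein_mono G (Lam_mono' G h)) hA

theorem le_inc (G : PG V) {p : ℝ} (hp0 : 0 ≤ p) (hp1 : p ≤ 1) (A : Finset (Sym2 V) → Prop) (r : ℕ) :
    Pr p (G.ein (G.Lam r)) A ≤ ⨆ r, Pr p (G.ein (G.Lam r)) A := by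
  exact le_ciSup (Lim_bdd G hp0 hp1 A) r

theorem inc_le_one (G : PG V) {p : ℝ} (hp0 : 0 ≤ p) (hp1 : p ≤ 1) (A : Finset (Sym2 V) → Prop) :
    (⨆ r, Pr p (G.ein (G.Lam r)) A) ≤ 1 ∧ 0 ≤ ⨆ r, Pr p (G.ein (G.Lam r)) A := by
  exact ⟨ciSup_le fun r => Pr_le_one hp0 hp1 _ _, Real.iSup_nonneg fun r => Pr_nonneg hp0 hp1 _ _⟩

theorem Inc_connOff (A : Set V) (w y : V) : Inc (fun ω : Finset (Sym2 V) => ConnOff ω A w y) := by
  intro ω ω' h hA
  exact connOff_mono h hA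

theorem HO_le_HH (G : PG V) {p : ℝ} (hp0 : 0 ≤ p) (hp1 : p ≤ 1) (F : Finset V) (A : Set V) (y : V) :
    G.HO p F A y ≤ G.HH p F y := by
  unfold PG.HO PG.HH
  exact ciSup_mono (Lim_bdd G hp0 hp1 _) fun r => Pr_mono hp0 hp1 _ fun ω _ h => h.1

theorem tendsto_thru (G : PG V) {p : ℝ} (hp0 : 0 ≤ p) (hp1 : p ≤ 1) (F : Finset V) (A : Set V) (y : V) :
    Filter.Tendsto (fun r => ENNReal.ofReal (Pr p (G.ein (G.Lam r)) (fun ω => Thru ω A F y))) Filter.atTop
      (nhds (G.TE p F A y)) := by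
  unfold PG.TE PG.HH PG.HO
  refine ENNReal.tendsto_ofReal ?_
  simp only [Lim_thru]
  exact (tendsto_inc G hp0 hp1 (Lim_all F y)).sub (tendsto_inc G hp0 hp1 (Lim_allO F A y))

theorem tendsto_TO (G : PG V) {p : ℝ} (hp0 : 0 ≤ p) (hp1 : p ≤ 1) (A : Set V) (w y : V) :
    Filter.Tendsto (fun r => ENNReal.ofReal (Pr p (G.ein (G.Lam r)) (fun ω => ConnOff ω A w y))) Filter.atTop
      (nhds (G.TO p A w y)) := by
  unfold PG.TO
  exact ENNReal.tendsto_ofReal (tendsto_inc G hp0 hp1 (Inc_connOff A w y))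

theorem le_TO (G : PG V) {p : ℝ} (hp0 : 0 ≤ p) (hp1 : p ≤ 1) (A : Set V) (w y : V) (r : ℕ) :
    ENNReal.ofReal (Pr p (G.ein (G.Lam r)) (fun ω => ConnOff ω A w y)) ≤ G.TO p A w y := by
  unfold PG.TO
  exact ENNReal.ofReal_le_ofReal (le_inc G hp0 hp1 _ r)

theorem TE_le_one (G : PG V) {p : ℝ} (hp0 : 0 ≤ p) (hp1 : p ≤ 1) (F : Finset V) (A : Set V) (y : V) :
    G.TE p F A y ≤ 1 := by
  unfold PG.TE
  have h1 : G.HH p F y ≤ 1 := (inc_le_one G hp0 hp1 _).1
  have h2 : 0 ≤ G.HO p F A y := (inc_le_one G hp0 hp1 _).2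
  rw [← ENNReal.ofReal_one]
  exact ENNReal.ofReal_le_ofReal (by linarith)

theorem TE_univ (G : PG V) (p : ℝ) (x y : V) :
    G.TE p {x} Set.univ y = ENNReal.ofReal (G.tau p x y) := by
  unfold PG.TE
  rw [Lim_univ, Lim_single, sub_zero]

theorem TE_univ_F (G : PG V) (p : ℝ) (F : Finset V) (y : V) :
    G.TE p F Set.univ y = ENNReal.ofReal (G.HH p F y) := by
  unfold PG.TE
  rw [Lim_univ, sub_zero]

theorem TE_add_TO (G : PG V) {p : ℝ} (hp0 : 0 ≤ p) (hp1 : p ≤ 1) (A : Set V) (w y : V) :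
    G.TE p {w} A y + G.TO p A w y = ENNReal.ofReal (G.tau p w y) := by
  have h1 : G.TO p A w y = ENNReal.ofReal (G.HO p {w} A y) := by
    unfold PG.TO PG.HO
    have h2 : ∀ r, Pr p (G.ein (G.Lam r)) (fun ω => ConnOff ω A w y) =
        Pr p (G.ein (G.Lam r)) (fun ω => AllConn ω {w} y ∧ ∃ f ∈ ({w} : Finset V),
          ConnOff ω A f y) := by
      intro r
      refine Pr_congr p _ fun ω _ => ?_
      constructor
      · intro h
        refine ⟨fun f hf => ?_, w, Finset.mem_singleton_self w, h⟩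
        rw [Finset.mem_singleton] at hf
        rw [hf]
        exact connOff_conn h
      · rintro ⟨_, f, hf, h⟩
        rw [Finset.mem_singleton] at hf
        rw [hf] at h
        exact h
    simp only [h2]
  have h3 : G.HO p {w} A y ≤ G.HH p {w} y := HO_le_HH G hp0 hp1 _ _ _
  have h4 : 0 ≤ G.HO p {w} A y := (inc_le_one G hp0 hp1 _).2
  rw [h1]
  unfold PG.TE
  rw [← ENNReal.ofReal_add (by linarith) h4, sub_add_cancel, Lim_single]

theorem TO_of_mem (G : PG V) (p : ℝ) {A : Set V} {w : V} (hw : w ∈ A) (y : V) : G.TO p A w y = 0 := by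
  unfold PG.TO
  have h1 : ∀ r, Pr p (G.ein (G.Lam r)) (fun ω => ConnOff ω A w y) = 0 := by
    intro r
    exact Pr_false p _ fun ω _ h => h.1 hw
  simp only [h1]
  rw [ciSup_const, ENNReal.ofReal_zero]

end IPC
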