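import Pool.Agent.Lib.MP_25e40f_pr.B.Ela
import Pool.Agent.Lib.MP_25e40f_pr.B.Lim

/-!
# Stream B, job Bfa: infinite volume limit of the sum over the darts (about 180 lines)

`tendsto_tsum_of` with `κ = (V × V) × Finset V`,
`a R (q, S) = if q ∈ darts (ein Λ_R) then ofReal (ccE p (ein Λ_R) F A q S * Pr p (ein Λ_R) (ConnOff S q.2 y)) else 0`  [for `S ∉ (F ∪ VV (ein Λ_R)).powerset` the coefficient `ccE` is `0`: `Cl (ω.erase b) F ⊆ F ∪ VV E`],
`c (q, S) = if q.2 ∈ G.nb q.1 then ofReal (cc p F A q S) * TO p S q.2 y else 0`,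
`tot R = ofReal (Pr p (ein Λ_R) (∃ q ∈ darts (ein Λ_R), GD ω A F y q))`, `fin r = (Λ_r ×ˢ (Λ_(r+1))) ×ˢ (Λ_r).powerset`, `ε r = ofReal (∑ f ∈ F, arm p f r)`.
 h1: for `R` large `q ∈ darts (ein Λ_R) ↔ q.2 ∈ nb q.1` (`darts_ein`, `exists_Lam`), `ccE = cc` (`ccE_eq_cc`, `touch_subset_ein`, `ein_touch`, `G.step`), and `tendsto_TO`, `ENNReal.Tendsto.const_mul` (`Or.inr ENNReal.ofReal_ne_top`),
     `ENNReal.ofReal_mul`.
 h2: for finite `T`: `∑_{k ∈ T} a R k ≤ ∑_{q ∈ darts E} ∑_{S ∈ (F ∪ VV E).powerset} ofReal (ccE .. * Pr ..)` (nonzero terms have `q ∈ darts E`, `S ∈ powerset`; `Finset.sum_le_sum_of_ne_zero` or `sum_subset`) `= tot R`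
     (`Pr_exists_GD` with `𝒮 = fun _ => True`, `ENNReal.ofReal_sum_of_nonneg`, `ccE_nonneg`, `Pr_nonneg`).
 h3 (`F ⊆ Λ_r`): split the event by `Cl (ω.erase b) F ⊆ Λ_r` or not: the second one is contained in `¬ Cl ω F ⊆ Λ_r`: `out_F`; the first one by `Pr_exists_GD` with `𝒮 T := T ⊆ Λ_r` is
     `∑_{q ∈ darts E} ∑_{S ∈ powerset, S ⊆ Λ_r} ccE * Pr(ConnOff)`, in which the terms with `q.1 ∉ Λ_r` vanish (`q.1 ∉ S`: if `q.2 ∈ S` then `ConnOff` is false, otherwise `ccE_zero`), and `q.1 ∈ Λ_r` gives `q.2 ∈ nb q.1 ⊆ Λ_(r+1)`.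
 h4: `q.1 ∈ Λ_r`, `S ⊆ Λ_r`, `r + 1 ≤ R`: `ccE = cc`, `Pr(ConnOff) ≤ TO` (`le_TO`); if `q ∈ darts (ein Λ_R)` then `q.2 ∈ nb q.1`.
 h5: `arm_sum_tendsto`.
-/

set_option autoImplicit false
set_option linter.unusedSectionVars false

noncomputable section

open Finset
open scoped Classical

namespace IPC

variable {V : Type} [DecidableEq V]

private theorem Bfa_mf {α : Type} {q : α → Prop} (i : DecidablePred q) {s : Finset α} {a : α}
    (h : a ∈ s) (h2 : q a) : a ∈ @Finset.filter α q i s := Finset.mem_filter.2 ⟨h, h2⟩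

private theorem Bfa_zero (p : ℝ) (E : Finset (Sym2 V)) (F : Finset V) (A : Set V) (q : V × V)
    {S : Finset V} (h : S ∉ (F ∪ VV E).powerset) : ccE p E F A q S = 0 := by
  unfold ccE
  rw [Pr_false p E, mul_zero]
  rintro ω hω ⟨_, h2⟩
  apply h
  rw [Finset.mem_powerset]
  intro x hx
  have h3 : x ∈ Cl (ω.erase s(q.1, q.2)) F := by
    rw [h2]
    exact Finset.mem_coe.2 hx
  have h4 := Cl_subset _ _ h3
  rw [Finset.mem_coe, Finset.mem_union] at h4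
  rcases h4 with h4 | h4
  · exact Finset.mem_union_left _ h4
  · exact Finset.mem_union_right _ (VV_mono ((Finset.erase_subset _ _).trans hω) h4)

private theorem Bfa_tot {p : ℝ} (hp0 : 0 ≤ p) (hp1 : p ≤ 1) (E : Finset (Sym2 V)) {F : Finset V}
    (hF : F.Nonempty) (A : Set V) (y : V) (𝒮 : Set V → Prop) :
    ENNReal.ofReal (Pr p E (fun ω => ∃ q ∈ darts E, GD ω A F y q ∧ 𝒮 (Cl (ω.erase s(q.1, q.2)) F))) =
      ∑ k ∈ darts E ×ˢ ((F ∪ VV E).powerset.filter (fun S : Finset V => 𝒮 (S : Set V))),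
        ENNReal.ofReal (ccE p E F A k.1 k.2 * Pr p E (fun ω => ConnOff ω (k.2 : Set V) k.1.2 y)) := by
  have hnn : ∀ (q : V × V) (S : Finset V),
      0 ≤ ccE p E F A q S * Pr p E (fun ω => ConnOff ω (S : Set V) q.2 y) := fun q S =>
    mul_nonneg (ccE_nonneg hp0 hp1 E F A q S) (Pr_nonneg hp0 hp1 E _)
  rw [Pr_exists_GD p E hF A y 𝒮, Finset.sum_product, ENNReal.ofReal_sum_of_nonneg
    (fun q _ => Finset.sum_nonneg fun S _ => hnn q S)]
  refine Finset.sum_congr rfl fun q _ => ?_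
  rw [ENNReal.ofReal_sum_of_nonneg (fun S _ => hnn q S)]

private theorem Bfa_cc (G : PG V) (p : ℝ) (F : Finset V) (A : Set V) (q : V × V) {S : Finset V} {r R : ℕ}
    (hS : S ⊆ G.Lam r) (hR : r + 1 ≤ R) : ccE p (G.ein (G.Lam R)) F A q S = G.cc p F A q S := by
  refine ccE_eq_cc G p (touch_subset_ein G (hS.trans (Lam_mono' G (by omega))) fun x hx => ?_) ?_ F A q
  · exact (G.step r x (hS hx)).trans (Lam_mono' G hR)
  · exact fun e he h => ein_touch G he h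

private theorem Bfa_ne (G : PG V) {p : ℝ} {F : Finset V} (hF : F.Nonempty) (A : Set V) (y : V) {r R : ℕ}
    {k : (V × V) × Finset V} (hk : k.1 ∈ darts (G.ein (G.Lam R))) (hS : (k.2 : Set V) ⊆ (G.Lam r : Set V))
    (hne : ENNReal.ofReal (ccE p (G.ein (G.Lam R)) F A k.1 k.2 *
      Pr p (G.ein (G.Lam R)) (fun ω => ConnOff ω (k.2 : Set V) k.1.2 y)) ≠ 0) :
    k ∈ (G.Lam r ×ˢ G.Lam (r + 1)) ×ˢ (G.Lam r).powerset := by
  have h1 : k.1.1 ∈ k.2 := by
    by_contra h1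
    apply hne
    by_cases h2 : k.1.2 ∈ k.2
    · have h3 : Pr p (G.ein (G.Lam R)) (fun ω => ConnOff ω (k.2 : Set V) k.1.2 y) = 0 :=
        Pr_false p _ fun ω _ h => h.1 (Finset.mem_coe.2 h2)
      rw [h3, mul_zero, ENNReal.ofReal_zero]
    · rw [ccE_zero p _ hF A h1 h2, zero_mul, ENNReal.ofReal_zero]
  have h2 : k.1.1 ∈ G.Lam r := Finset.mem_coe.1 (hS (Finset.mem_coe.2 h1))
  rw [Finset.mem_product, Finset.mem_product, Finset.mem_powerset]
  refine ⟨⟨h2, ?_⟩, Finset.coe_subset.1 hS⟩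
  exact G.step r _ h2 ((darts_ein G).1 hk).2.2

theorem tendsto_GD (G : PG V) {p : ℝ} (hp0 : 0 ≤ p) (hp1 : p ≤ 1) (hN : G.NoPerc p) {F : Finset V}
    (hF : F.Nonempty) (A : Set V) (y : V) :
    Filter.Tendsto (fun R => ENNReal.ofReal (Pr p (G.ein (G.Lam R))
        (fun ω => ∃ q ∈ darts (G.ein (G.Lam R)), GD ω A F y q))) Filter.atTop
      (nhds (∑' k : (V × V) × Finset V, if k.1.2 ∈ G.nb k.1.1 then
        ENNReal.ofReal (G.cc p F A k.1 k.2) * G.TO p (k.2 : Set V) k.1.2 y else 0)) := by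
  have hccn : ∀ q S, 0 ≤ G.cc p F A q S := fun q S => cc_nonneg G hp0 hp1 F A q S
  refine tendsto_tsum_of
    (fun R k => if k.1 ∈ darts (G.ein (G.Lam R)) then
      ENNReal.ofReal (ccE p (G.ein (G.Lam R)) F A k.1 k.2 *
        Pr p (G.ein (G.Lam R)) (fun ω => ConnOff ω (k.2 : Set V) k.1.2 y)) else 0) _ _
    (fun r => (G.Lam r ×ˢ G.Lam (r + 1)) ×ˢ (G.Lam r).powerset)
    (fun r => ENNReal.ofReal (∑ f ∈ F, G.arm p f r)) ?_ ?_ ?_ ?_ ?_
  · rintro ⟨⟨u, u'⟩, S⟩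
    obtain ⟨r, hr⟩ := exists_Lam G ({u, u'} ∪ S)
    have hu : u ∈ G.Lam r := hr (Finset.mem_union_left _ (Finset.mem_insert_self _ _))
    have hu' : u' ∈ G.Lam r := hr (Finset.mem_union_left _
      (Finset.mem_insert_of_mem (Finset.mem_singleton_self _)))
    have hS : S ⊆ G.Lam r := fun x hx => hr (Finset.mem_union_right _ hx)
    have hev : ∀ᶠ R in Filter.atTop, (if u' ∈ G.nb u then
        ENNReal.ofReal (G.cc p F A (u, u') S) *
          ENNReal.ofReal (Pr p (G.ein (G.Lam R)) (fun ω => ConnOff ω (S : Set V) u' y)) else 0) =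
        (if (u, u') ∈ darts (G.ein (G.Lam R)) then
      ENNReal.ofReal (ccE p (G.ein (G.Lam R)) F A (u, u') S *
        Pr p (G.ein (G.Lam R)) (fun ω => ConnOff ω (S : Set V) u' y)) else 0) := by
      refine Filter.eventually_atTop.2 ⟨r + 1, fun R hR => ?_⟩
      have h1 : (u, u') ∈ darts (G.ein (G.Lam R)) ↔ u' ∈ G.nb u := by
        rw [darts_ein]
        exact ⟨fun h => h.2.2, fun h => ⟨Lam_mono' G (by omega) hu, Lam_mono' G (by omega) hu', h⟩⟩
      by_cases h2 : u' ∈ G.nb u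
      · rw [if_pos h2, if_pos (h1.2 h2), Bfa_cc G p F A (u, u') hS hR, ENNReal.ofReal_mul (hccn _ _)]
      · rw [if_neg h2, if_neg (fun h => h2 (h1.1 h))]
    refine Filter.Tendsto.congr' hev ?_
    by_cases h2 : u' ∈ G.nb u
    · simp only [if_pos h2]
      exact ENNReal.Tendsto.const_mul (tendsto_TO G hp0 hp1 (S : Set V) u' y) (Or.inr ENNReal.ofReal_ne_top)
    · simp only [if_neg h2]
      exact tendsto_const_nhds
  · intro R T
    have h1 := Bfa_tot hp0 hp1 (G.ein (G.Lam R)) hF A y (fun _ => True)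
    have h2 : Pr p (G.ein (G.Lam R)) (fun ω => ∃ q ∈ darts (G.ein (G.Lam R)), GD ω A F y q) =
        Pr p (G.ein (G.Lam R)) (fun ω => ∃ q ∈ darts (G.ein (G.Lam R)), GD ω A F y q ∧ True) :=
      Pr_congr p _ fun ω _ => ⟨fun ⟨q, h, h'⟩ => ⟨q, h, h', trivial⟩, fun ⟨q, h, h', _⟩ => ⟨q, h, h'⟩⟩
    rw [h2, h1]
    refine le_trans (b := ∑ k ∈ _, (if k.1 ∈ darts (G.ein (G.Lam R)) then
          ENNReal.ofReal (ccE p (G.ein (G.Lam R)) F A k.1 k.2 *
            Pr p (G.ein (G.Lam R)) (fun ω => ConnOff ω (k.2 : Set V) k.1.2 y)) else 0)) ?_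
      (le_of_eq (Finset.sum_congr rfl (fun k hk => if_pos (Finset.mem_product.1 hk).1)))
    refine Finset.sum_le_sum_of_ne_zero fun k _ hk => ?_
    by_cases h4 : k.1 ∈ darts (G.ein (G.Lam R))
    · refine Finset.mem_product.2 ⟨h4, Bfa_mf _ ?_ trivial⟩
      by_contra h5
      apply hk
      rw [if_pos h4, Bfa_zero p _ F A k.1 h5, zero_mul, ENNReal.ofReal_zero]
    · exact absurd (if_neg h4) hk
  · obtain ⟨r₀, hr₀⟩ := exists_Lam G F
    refine ⟨r₀, fun r R hr hR => ?_⟩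
    have hFr : F ⊆ G.Lam r := hr₀.trans (Lam_mono' G hr)
    have h1 : Pr p (G.ein (G.Lam R)) (fun ω => ∃ q ∈ darts (G.ein (G.Lam R)), GD ω A F y q) ≤
        Pr p (G.ein (G.Lam R)) (fun ω => (∃ q ∈ darts (G.ein (G.Lam R)), GD ω A F y q ∧
          Cl (ω.erase s(q.1, q.2)) F ⊆ (G.Lam r : Set V)) ∨ ¬ Cl ω F ⊆ (G.Lam r : Set V)) := by
      refine Pr_mono hp0 hp1 _ ?_
      rintro ω _ ⟨q, hq, hg⟩
      by_cases h2 : Cl ω F ⊆ (G.Lam r : Set V)
      · exact Or.inl ⟨q, hq, hg, (Cl_mono (Finset.erase_subset _ _) F).trans h2⟩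
      · exact Or.inr h2
    have h2 := h1.trans (Pr_or_le hp0 hp1 (G.ein (G.Lam R))
      (fun ω => ∃ q ∈ darts (G.ein (G.Lam R)), GD ω A F y q ∧
          Cl (ω.erase s(q.1, q.2)) F ⊆ (G.Lam r : Set V)) (fun ω => ¬ Cl ω F ⊆ (G.Lam r : Set V)))
    have h3 := h2.trans (add_le_add_right (out_F G hp0 hp1 hFr hR) _)
    refine (ENNReal.ofReal_le_ofReal h3).trans ?_
    rw [ENNReal.ofReal_add (Pr_nonneg hp0 hp1 _ _)
      (Finset.sum_nonneg fun f _ => arm_nonneg G hp0 hp1 f r)]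
    refine add_le_add_left ?_ _
    rw [Bfa_tot hp0 hp1 (G.ein (G.Lam R)) hF A y (fun T => T ⊆ (G.Lam r : Set V))]
    have h4 : ∑ k ∈ darts (G.ein (G.Lam R)) ×ˢ
          ((F ∪ VV (G.ein (G.Lam R))).powerset.filter
            (fun S : Finset V => (S : Set V) ⊆ (G.Lam r : Set V))),
        ENNReal.ofReal (ccE p (G.ein (G.Lam R)) F A k.1 k.2 *
          Pr p (G.ein (G.Lam R)) (fun ω => ConnOff ω (k.2 : Set V) k.1.2 y)) =
        ∑ k ∈ darts (G.ein (G.Lam R)) ×ˢ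
          ((F ∪ VV (G.ein (G.Lam R))).powerset.filter
            (fun S : Finset V => (S : Set V) ⊆ (G.Lam r : Set V))),
        (if k.1 ∈ darts (G.ein (G.Lam R)) then
          ENNReal.ofReal (ccE p (G.ein (G.Lam R)) F A k.1 k.2 *
            Pr p (G.ein (G.Lam R)) (fun ω => ConnOff ω (k.2 : Set V) k.1.2 y)) else 0) := by
      refine Finset.sum_congr rfl fun k hk => ?_
      rw [if_pos (Finset.mem_product.1 hk).1]
    rw [h4]
    refine Finset.sum_le_sum_of_ne_zero fun k hk hne => ?_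
    obtain ⟨hk1, hk2⟩ := Finset.mem_product.1 hk
    rw [if_pos hk1] at hne
    exact Bfa_ne G hF A y hk1 (Finset.mem_filter.1 hk2).2 hne
  · refine ⟨0, fun r R _ hR k hk => ?_⟩
    rw [Finset.mem_product, Finset.mem_product, Finset.mem_powerset] at hk
    by_cases h1 : k.1 ∈ darts (G.ein (G.Lam R))
    · have h2 : k.1.2 ∈ G.nb k.1.1 := ((darts_ein G).1 h1).2.2
      rw [if_pos h1, if_pos h2, Bfa_cc G p F A k.1 hk.2 hR, ENNReal.ofReal_mul (hccn _ _)]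
      exact mul_le_mul_right (le_TO G hp0 hp1 (k.2 : Set V) k.1.2 y R) _
    · rw [if_neg h1]
      exact bot_le
  · have h1 := ENNReal.tendsto_ofReal (arm_sum_tendsto G hN F)
    rw [ENNReal.ofReal_zero] at h1
    exact h1

end IPC
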