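import Pool.Agent.Lib.MP_25e40f_pr.B.Bfa

/-!
# Stream B, job Bfb: the one step identity in infinite volume (about 120 lines)

(1) `TE p F A y = ZZ 0 F A y + ∑' k, (...)`: `Pr_thru` for `E = ein Λ_R`, `ENNReal.ofReal_add`; limits `tendsto_thru`, `tendsto_EP`, `tendsto_GD`, `Tendsto.add`, `tendsto_nhds_unique`.
(2) `∑' k : (V × V) × Finset V, f = ∑' x, ∑' x2, ∑' S, f` (`ENNReal.tsum_prod`), and `∑' S, if c then g S else 0 = if c then ∑' S, g S else 0`.
(3) Add `stepE G p (TE · · y) F A`: `tsum_add` (`ENNReal.tsum_add`) in `x`, `x2`, `S`: `ofReal cc * TO S x2 y + ofReal cc * TE {x2} S y = ofReal cc * ofReal (tau p x2 y)` (`TE_add_TO`), and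
    `∑' S, ofReal (cc ..) * ofReal (tau x2 y) = ofReal p * ZZ 0 F A x * ofReal (tau x2 y)` (`ENNReal.tsum_mul_right`, `sum_cc`).
(4) `∑' x2, if x2 ∈ nb x then h x2 else 0 = ∑ x2 ∈ nb x, h x2` (`tsum_eq_sum`), `ofReal p * ofReal tau = ofReal (p * tau)`; `∑' u, ZZ 0 F A u * VE p u y = ZZ 0 F A y + ∑' u, ZZ 0 F A u * ∑ ...` (`mul_add`, `ENNReal.tsum_add`, `tsum_eq_single y`).
-/

set_option autoImplicit false
set_option linter.unusedSectionVars false

noncomputable section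

open Finset
open scoped Classical

namespace IPC

variable {V : Type} [DecidableEq V]

private theorem Bfb_one (G : PG V) {p : ℝ} (hp0 : 0 ≤ p) (hp1 : p ≤ 1) (hN : G.NoPerc p) {F : Finset V}
    (hF : F.Nonempty) (A : Set V) (y : V) :
    G.TE p F A y = ZZ G p 0 F A y + ∑' k : (V × V) × Finset V, (if k.1.2 ∈ G.nb k.1.1 then
        ENNReal.ofReal (G.cc p F A k.1 k.2) * G.TO p (k.2 : Set V) k.1.2 y else 0) := by
  have h1 := tendsto_thru G hp0 hp1 F A y
  have h2 := (tendsto_EP G hp0 hp1 hN hF A y).add (tendsto_GD G hp0 hp1 hN hF A y)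
  refine tendsto_nhds_unique h1 (h2.congr fun R => ?_)
  rw [Pr_thru p (G.ein (G.Lam R)) hF A y, ENNReal.ofReal_add (Pr_nonneg hp0 hp1 _ _)
    (Pr_nonneg hp0 hp1 _ _)]

private theorem Bfb_nb (N : Finset V) (h : V → ENNReal) :
    (∑' x2, if x2 ∈ N then h x2 else 0) = ∑ x2 ∈ N, h x2 := by
  rw [tsum_eq_sum (s := N) (fun x2 hx2 => if_neg hx2)]
  exact Finset.sum_congr rfl fun x2 hx2 => if_pos hx2

theorem thru_step (G : PG V) {p : ℝ} (hp0 : 0 ≤ p) (hp1 : p ≤ 1) (hN : G.NoPerc p) {F : Finset V}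
    (hF : F.Nonempty) (A : Set V) (y : V) :
    G.TE p F A y + stepE G p (fun F A => G.TE p F A y) F A = ∑' u, ZZ G p 0 F A u * G.VE p u y := by
  have hstep : (∑' k : (V × V) × Finset V, (if k.1.2 ∈ G.nb k.1.1 then
        ENNReal.ofReal (G.cc p F A k.1 k.2) * G.TO p (k.2 : Set V) k.1.2 y else 0)) +
      stepE G p (fun F A => G.TE p F A y) F A =
      ∑' x, ∑ x2 ∈ G.nb x, ENNReal.ofReal p * ZZ G p 0 F A x * ENNReal.ofReal (G.tau p x2 y) := by
    rw [ENNReal.tsum_prod', ENNReal.tsum_prod']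
    unfold stepE
    rw [← ENNReal.tsum_add]
    refine tsum_congr fun x => ?_
    rw [← ENNReal.tsum_add, ← Bfb_nb]
    refine tsum_congr fun x2 => ?_
    by_cases h : x2 ∈ G.nb x
    · simp only [if_pos h]
      rw [← ENNReal.tsum_add, ← sum_cc G hp0 hp1 hN hF A x x2, ← ENNReal.tsum_mul_right]
      refine tsum_congr fun S => ?_
      rw [← mul_add, add_comm, TE_add_TO G hp0 hp1]
    · simp only [if_neg h, tsum_zero, add_zero]
  rw [Bfb_one G hp0 hp1 hN hF A y, add_assoc, hstep]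
  have hR : (∑' u, ZZ G p 0 F A u * G.VE p u y) =
      (∑' u, ZZ G p 0 F A u * (if u = y then 1 else 0)) +
      ∑' u, ∑ v ∈ G.nb u, ENNReal.ofReal p * ZZ G p 0 F A u * ENNReal.ofReal (G.tau p v y) := by
    rw [← ENNReal.tsum_add]
    refine tsum_congr fun u => ?_
    unfold PG.VE
    rw [mul_add, Finset.mul_sum]
    refine congrArg (fun t => ZZ G p 0 F A u * (if u = y then 1 else 0) + t) ?_
    refine Finset.sum_congr rfl fun v _ => ?_
    rw [ENNReal.ofReal_mul hp0]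
    ring
  have h5 : (∑' u, ZZ G p 0 F A u * (if u = y then 1 else 0)) = ZZ G p 0 F A y := by
    rw [tsum_eq_single y (fun u hu => by rw [if_neg hu, mul_zero]), if_pos rfl, mul_one]
  rw [hR, h5]

end IPC
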