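import Pool.Agent.Lib.MP_25e40f_pr.B.Bas

/-!
# Stream B, job Cnv: the expansion identity, converse (about 100 lines)

`b = s(u, u')`, `ω_b = ω.erase b`, `S = Cl ω_b F`.  `u ∈ S` (`EP_mem`), `u' ∉ S` (`h2.1`), `v ∉ S` (`connOff_notMem h2`).
* All connected: `f ∈ F`: `Conn ω_b f u` (`h1.1.1`), the edge `b`, and `Conn ω_b u' v` (`connOff_conn h2`); monotone.
* Not off `A`: suppose `ConnOff ω A f v`, `f ∈ F`, i.e. `f ∉ A`, `Conn (off ω A) f v`.  `f ∈ S`, `v ∉ S`: by `Conn_exit_edge` (with `X = S`, the edge set `off ω A`) there are `a ∈ S`, `c ∉ S`, `s(a, c) ∈ off ω A`, and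
  `Conn ((off ω A).filter (inside S)) f a`.  The edge `s(a, c)` is in `ω` and leaves `S`; if it were `≠ b` it would be in `ω_b` and `c ∈ S` (`Cl_edge`); so `s(a, c) = s(u, u')`, `a = u`, `c = u'` (as `u ∈ S`, `u' ∉ S`).
  The filtered edge set is contained in `off ω_b A` (`b` is not inside `S` since `u' ∉ S`): `ConnOff ω_b A f u`, contradiction to `h1.1.2`.
* Not `EP ω A F v`: the pair `(u, u')` violates it: `b ∈ ω`, `u ∈ Cl ω_b F`, `v ∉ Cl ω_b F`, `Thru ω_b A F u = h1.1`.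
-/

set_option autoImplicit false
set_option linter.unusedSectionVars false

open Finset
open scoped Classical

namespace IPC

variable {V : Type} [DecidableEq V]

theorem exp_converse {ω : Finset (Sym2 V)} {A : Set V} {F : Finset V} (hF : F.Nonempty) {u u' v : V}
    (hb : s(u, u') ∈ ω) (h1 : EP (ω.erase s(u, u')) A F u)
    (h2 : ConnOff (ω.erase s(u, u')) (Cl (ω.erase s(u, u')) F) u' v) : Thru ω A F v ∧ ¬ EP ω A F v := by
  have hsub : ω.erase s(u, u') ⊆ ω := Finset.erase_subset _ _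
  have hu : u ∈ Cl (ω.erase s(u, u')) F := EP_mem hF h1
  have hu' : u' ∉ Cl (ω.erase s(u, u')) F := h2.1
  have hv : v ∉ Cl (ω.erase s(u, u')) F := connOff_notMem h2
  refine ⟨⟨?_, ?_⟩, ?_⟩
  · intro f hf
    exact Conn_trans (Conn_mono hsub (h1.1.1 f hf))
      (Conn_trans (Conn_edge hb) (Conn_mono hsub (connOff_conn h2)))
  · rintro f hf ⟨hfA, hc⟩
    apply h1.1.2 f hf
    obtain ⟨a, c, ha, hcS, hac, hp⟩ := Conn_exit_edge (Cl (ω.erase s(u, u')) F) (subset_Cl hf) hv hc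
    have hacω := (mem_off'.1 hac).1
    have heq : s(a, c) = s(u, u') := by
      by_contra hne
      exact hcS (Cl_edge ha (Finset.mem_erase.2 ⟨hne, hacω⟩))
    rcases Sym2.eq_iff.1 heq with ⟨h3, h4⟩ | ⟨h3, h4⟩
    · rw [h3] at hp
      refine ⟨hfA, Conn_mono ?_ hp⟩
      intro e he
      rw [Finset.mem_filter] at he
      obtain ⟨he1, he2⟩ := he
      rw [mem_off] at he1 ⊢
      refine ⟨Finset.mem_erase.2 ⟨?_, he1.1⟩, he1.2⟩
      intro hee
      exact hu' (he2 u' (hee ▸ Sym2.mem_mk_right u u'))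
    · exact absurd (h3 ▸ ha) hu'
  · intro hE
    exact hE.2 u u' hb hu hv h1.1

end IPC
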