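import Pool.Agent.Lib.MP_25e40f_pr.B.Loc

/-!
# Stream B, job Dom: the one step identity in a finite domain, with local coefficients (about 150 lines)

`D` finite, `B ⊆ D` with all neighbours of `B` in `D`; `E = G.ein D`.
`Pr_thru` and then split the second event according to `Cl (ω.erase b) F ⊆ B` or not (by `GD_unique` the dart is unique, so
`(∃ q ∈ darts E, GD ω A F v q) ` is the disjoint union of `∃ q ∈ darts E, GD ∧ Cl ⊆ B` and `∃ q ∈ darts E, GD ∧ ¬ Cl ⊆ B`; `Pr_split`, `Pr_congr`).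
The first one by `Pr_exists_GD` with `𝒮 T := T ⊆ B`: `∑ q ∈ darts E, ∑ S ∈ (F ∪ VV E).powerset.filter (S ⊆ B), ccE p E F A q S * Pr p E (ConnOff S q.2 v)`.
* `S ⊆ B`: `ccE p E F A q S = G.cc p F A q S` (`ccE_eq_cc`, `touch_subset_ein`, `ein_touch`), and `Pr p E (ConnOff S q.2 v) = G.tauD p D q.2 v - Pr p E (Thru S {q.2} v)` (`Pr_connOff`).
* The index set can be changed to `S ∈ B.powerset` and `q = (x, x2)`, `x ∈ B`, `x2 ∈ G.nb x`:  a term with `q.1 ∉ B` vanishes (`q.1 ∉ S`; if `q.2 ∈ S` then `ConnOff` is false, otherwise `ccE_zero`); for `x ∈ B`, `x2 ∈ G.nb x` we have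
  `(x, x2) ∈ darts E` (`darts_ein`).   `S ∈ B.powerset` but `¬ S ⊆ F ∪ VV E`: then `ccE = 0`, since `Cl (ω.erase b) F ⊆ F ∪ VV E` for `ω ⊆ E` (`Cl_subset`, `VV_mono`; `Pr_false`).
-/

set_option autoImplicit false
set_option linter.unusedSectionVars false

noncomputable section

open Finset
open scoped Classical

namespace IPC

variable {V : Type} [DecidableEq V]

private theorem Dom_zero (p : ℝ) (E : Finset (Sym2 V)) (F : Finset V) (A : Set V) (q : V × V)
    {S : Finset V} (h : ¬ S ⊆ F ∪ VV E) : ccE p E F A q S = 0 := by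
  unfold ccE
  rw [Pr_false, mul_zero]
  rintro ω hω ⟨_, h2⟩
  apply h
  intro x hx
  have h3 : x ∈ Cl (ω.erase s(q.1, q.2)) F := by
    rw [h2]
    exact Finset.mem_coe.2 hx
  have h4 := Cl_subset _ _ h3
  rw [Finset.mem_coe, Finset.mem_union] at h4
  rw [Finset.mem_union]
  exact h4.imp id fun h5 => VV_mono ((Finset.erase_subset _ _).trans hω) h5

private theorem Dom_split (p : ℝ) (E : Finset (Sym2 V)) {F : Finset V} (hF : F.Nonempty) (A : Set V)
    (v : V) (T : Set V) :
    Pr p E (fun ω => ∃ q ∈ darts E, GD ω A F v q) =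
      Pr p E (fun ω => ∃ q ∈ darts E, GD ω A F v q ∧ Cl (ω.erase s(q.1, q.2)) F ⊆ T) +
      Pr p E (fun ω => ∃ q ∈ darts E, GD ω A F v q ∧ ¬ Cl (ω.erase s(q.1, q.2)) F ⊆ T) := by
  rw [Pr_split p E (fun ω => ∃ q ∈ darts E, GD ω A F v q)
    (fun ω => ∃ q ∈ darts E, GD ω A F v q ∧ Cl (ω.erase s(q.1, q.2)) F ⊆ T)]
  congr 1
  · apply Pr_congr
    intro ω _
    constructor
    · exact fun h => h.2
    · exact fun h => ⟨by obtain ⟨q, hq, h1, _⟩ := h; exact ⟨q, hq, h1⟩, h⟩
  · apply Pr_congr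
    intro ω _
    constructor
    · rintro ⟨⟨q, hq, h1⟩, h2⟩
      exact ⟨q, hq, h1, fun h3 => h2 ⟨q, hq, h1, h3⟩⟩
    · rintro ⟨q, hq, h1, h2⟩
      refine ⟨⟨q, hq, h1⟩, ?_⟩
      rintro ⟨q', _, h3, h4⟩
      have h5 := GD_unique hF h1 h3
      subst h5
      exact h2 h4

theorem domain_step (G : PG V) (p : ℝ) {D B : Finset V} (hBD : B ⊆ D) (hB : ∀ x ∈ B, G.nb x ⊆ D)
    {F : Finset V} (hF : F.Nonempty) (A : Set V) (v : V) :
    Pr p (G.ein D) (fun ω => Thru ω A F v) =
      (∑ x ∈ B, ∑ x2 ∈ G.nb x, ∑ S ∈ B.powerset, G.cc p F A (x, x2) S *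
        (G.tauD p D x2 v - Pr p (G.ein D) (fun ω => Thru ω (S : Set V) {x2} v))) +
      Pr p (G.ein D) (fun ω => EP ω A F v) +
      Pr p (G.ein D) (fun ω => ∃ q ∈ darts (G.ein D), GD ω A F v q ∧
        ¬ Cl (ω.erase s(q.1, q.2)) F ⊆ (B : Set V)) := by
  have key : Pr p (G.ein D) (fun ω => ∃ q ∈ darts (G.ein D), GD ω A F v q ∧
      Cl (ω.erase s(q.1, q.2)) F ⊆ (B : Set V)) =
      ∑ x ∈ B, ∑ x2 ∈ G.nb x, ∑ S ∈ B.powerset, G.cc p F A (x, x2) S *
        (G.tauD p D x2 v - Pr p (G.ein D) (fun ω => Thru ω (S : Set V) {x2} v)) := by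
    rw [Pr_exists_GD p (G.ein D) hF A v (fun T => T ⊆ (B : Set V))]
    -- the index set of the inner sum
    have h1 : ∀ q ∈ darts (G.ein D),
        ∑ S ∈ (F ∪ VV (G.ein D)).powerset.filter (fun S : Finset V => (S : Set V) ⊆ (B : Set V)),
          ccE p (G.ein D) F A q S * Pr p (G.ein D) (fun ω => ConnOff ω (S : Set V) q.2 v) =
        ∑ S ∈ B.powerset,
          ccE p (G.ein D) F A q S * Pr p (G.ein D) (fun ω => ConnOff ω (S : Set V) q.2 v) := by
      intro q _
      apply Finset.sum_subset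
      · intro S hS
        rw [Finset.mem_filter] at hS
        rw [Finset.mem_powerset]
        exact Finset.coe_subset.1 hS.2
      · intro S hS hS'
        rw [Finset.mem_powerset] at hS
        have h2 : ¬ S ⊆ F ∪ VV (G.ein D) := by
          intro h3
          apply hS'
          rw [Finset.mem_filter, Finset.mem_powerset]
          exact ⟨h3, Finset.coe_subset.2 hS⟩
        rw [Dom_zero p (G.ein D) F A q h2, zero_mul]
    rw [Finset.sum_congr rfl h1]
    -- only darts starting in `B`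
    have h2 : ∑ q ∈ darts (G.ein D), ∑ S ∈ B.powerset,
          ccE p (G.ein D) F A q S * Pr p (G.ein D) (fun ω => ConnOff ω (S : Set V) q.2 v) =
        ∑ q ∈ (darts (G.ein D)).filter (fun q => q.1 ∈ B), ∑ S ∈ B.powerset,
          ccE p (G.ein D) F A q S * Pr p (G.ein D) (fun ω => ConnOff ω (S : Set V) q.2 v) := by
      symm
      apply Finset.sum_subset (Finset.filter_subset _ _)
      intro q hq hq'
      have hqB : q.1 ∉ B := fun h => hq' (Finset.mem_filter.2 ⟨hq, h⟩)
      apply Finset.sum_eq_zero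
      intro S hS
      rw [Finset.mem_powerset] at hS
      by_cases h3 : q.2 ∈ S
      · rw [Pr_false p (G.ein D) (A := fun ω => ConnOff ω (S : Set V) q.2 v)
          (fun ω _ h4 => h4.1 (Finset.mem_coe.2 h3)), mul_zero]
      · rw [ccE_zero p (G.ein D) hF A (fun h4 => hqB (hS h4)) h3, zero_mul]
    rw [h2, Finset.sum_finset_product ((darts (G.ein D)).filter (fun q => q.1 ∈ B)) B G.nb]
    · apply Finset.sum_congr rfl
      intro x _
      apply Finset.sum_congr rfl
      intro x2 _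
      apply Finset.sum_congr rfl
      intro S hS
      rw [Finset.mem_powerset] at hS
      rw [ccE_eq_cc G p (touch_subset_ein G (hS.trans hBD) fun y hy => hB y (hS hy))
        (fun e he h => ein_touch G he h), Pr_connOff]
      rfl
    · intro q
      rw [Finset.mem_filter, darts_ein]
      constructor
      · rintro ⟨⟨_, _, h3⟩, h4⟩
        exact ⟨h4, h3⟩
      · rintro ⟨h3, h4⟩
        exact ⟨⟨hBD h3, hB _ h3 h4, h4⟩, h3⟩
  rw [Pr_thru p (G.ein D) hF A v, Dom_split p (G.ein D) hF A v (B : Set V), key]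
  ring

end IPC
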