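import Pool.Agent.Lib.MP_25e40f_pr.B.Arm
import Pool.Agent.Lib.MP_25e40f_pr.B.Abl

/-!
# Stream B, job Ela: infinite volume limits of the events `EP` (about 170 lines)

General lemma (private): let `X : Finset (Sym2 V) → Prop` (the event `EP ω A F u`) and `C : Finset (Sym2 V) → Set V` a cluster (`Cl ω F` or `Cl (ω.erase b) F`) with `C ω ⊆ Cl ω F`, and `c : Finset V → ℝ` nonnegative such that
for `S ⊆ Λ_r`, `r + 1 ≤ R`: `Pr p (ein Λ_R) (X ω ∧ C ω = S) = c S`.  Then `ofReal (Pr p (ein Λ_R) X) → ∑' S, ofReal (c S)`.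
Proof: `tendsto_tsum_of` with `κ = Finset V`, `a R S = ofReal (Pr p (ein Λ_R) (X ω ∧ C ω = S))`, `tot R = ofReal (Pr p (ein Λ_R) X)`, `fin r = (Λ_r).powerset`, `ε r = ofReal (∑ f ∈ F, arm p f r)`.
 h1: eventually constant (`exists_Lam` for `S`; `tendsto_const_nhds.congr'`).
 h2: `ENNReal.ofReal_sum_of_nonneg`, `sum_Pr_le` (exclusive: `C ω = S`, `C ω = S'`).
 h3 (`r₀` with `F ⊆ Λ_r₀`): `X ω → (∃ S ∈ (Λ_r).powerset, X ω ∧ C ω = S) ∨ ¬ Cl ω F ⊆ Λ_r` for `ω ⊆ ein Λ_R` (if `C ω ⊆ Cl ω F ⊆ Λ_r` take `S = (Λ_r).filter (· ∈ C ω)`); `Pr_or_le`, `Pr_exists_le`, `out_F`.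
 h4: equality `a R S = ofReal (c S)`.
 h5: `arm_sum_tendsto`, `ENNReal.tendsto_ofReal`.
`tendsto_EP`: `C ω = Cl ω F`, `c S = ec p F A u S` (`ecE_eq_ec`, `touch_subset_ein`, `ein_touch`, `G.step`, `Lam_mono'`).
`sum_cc`: `C ω = Cl (ω.erase s(x, x2)) F`, `c S = Pr p (touch S) (EP ω A F x ∧ Cl (ω.erase ..) F = S)`, so `ofReal (cc p F A (x,x2) S) = ofReal p * ofReal (c S)` (`ENNReal.ofReal_mul`), `ENNReal.tsum_mul_left`, and the limit
of `ofReal (Pr p (ein Λ_R) EP)` is unique (`tendsto_nhds_unique`).  (The locality of `c`: as in `ccE_eq_cc`; `ccE_eq_cc` with `p ≠ 0`, or repeat its proof with `Pr_restrict` and `EPCl_local`.)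
-/

set_option autoImplicit false
set_option linter.unusedSectionVars false

noncomputable section

open Finset
open scoped Classical

namespace IPC

variable {V : Type} [DecidableEq V]

/-- the general limit lemma -/
private theorem Ela_lim (G : PG V) {p : ℝ} (hp0 : 0 ≤ p) (hp1 : p ≤ 1) (hN : G.NoPerc p) {F : Finset V}
    (X : Finset (Sym2 V) → Prop) (C : Finset (Sym2 V) → Set V) (c : Finset V → ℝ)
    (hC : ∀ ω, C ω ⊆ Cl ω F)
    (hc : ∀ r R (S : Finset V), S ⊆ G.Lam r → r + 1 ≤ R →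
      Pr p (G.ein (G.Lam R)) (fun ω => X ω ∧ C ω = (S : Set V)) = c S) :
    Filter.Tendsto (fun R => ENNReal.ofReal (Pr p (G.ein (G.Lam R)) X)) Filter.atTop
      (nhds (∑' S : Finset V, ENNReal.ofReal (c S))) := by
  refine tendsto_tsum_of
    (fun R (S : Finset V) => ENNReal.ofReal (Pr p (G.ein (G.Lam R)) (fun ω => X ω ∧ C ω = (S : Set V))))
    _ _ (fun r => (G.Lam r).powerset) (fun r => ENNReal.ofReal (∑ f ∈ F, G.arm p f r)) ?_ ?_ ?_ ?_ ?_
  · intro S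
    obtain ⟨r, hr⟩ := exists_Lam G S
    refine tendsto_const_nhds.congr' ?_
    filter_upwards [Filter.eventually_ge_atTop (r + 1)] with R hR
    rw [hc r R S hr hR]
  · intro R T
    rw [← ENNReal.ofReal_sum_of_nonneg (fun S _ => Pr_nonneg hp0 hp1 _ _)]
    refine ENNReal.ofReal_le_ofReal ?_
    refine sum_Pr_le hp0 hp1 _ T _ _ ?_ ?_
    · rintro ω _ S _ S' _ ⟨_, h1⟩ ⟨_, h2⟩
      exact Finset.coe_injective (h1.symm.trans h2)
    · rintro ω _ S _ ⟨h1, _⟩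
      exact h1
  · obtain ⟨r0, hr0⟩ := exists_Lam G F
    refine ⟨r0, fun r R hr hR => ?_⟩
    have hF : F ⊆ G.Lam r := hr0.trans (Lam_mono' G hr)
    rw [← ENNReal.ofReal_sum_of_nonneg (fun S _ => Pr_nonneg hp0 hp1 _ _), ← ENNReal.ofReal_add
      (Finset.sum_nonneg fun S _ => Pr_nonneg hp0 hp1 _ _)
      (Finset.sum_nonneg fun f _ => arm_nonneg G hp0 hp1 f r)]
    refine ENNReal.ofReal_le_ofReal ?_
    have h1 : Pr p (G.ein (G.Lam R)) X ≤ Pr p (G.ein (G.Lam R)) (fun ω =>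
        (∃ S ∈ (G.Lam r).powerset, X ω ∧ C ω = (S : Set V)) ∨ ¬ Cl ω F ⊆ (G.Lam r : Set V)) := by
      refine Pr_mono hp0 hp1 _ fun ω _ hX => ?_
      by_cases hcl : Cl ω F ⊆ (G.Lam r : Set V)
      · left
        refine ⟨(G.Lam r).filter fun y => y ∈ C ω,
          Finset.mem_powerset.2 (Finset.filter_subset _ _), hX, ?_⟩
        ext y
        rw [Finset.coe_filter]
        exact ⟨fun h => ⟨hcl (hC ω h), h⟩, fun h => h.2⟩
      · exact Or.inr hcl
    have h2 := Pr_or_le hp0 hp1 (G.ein (G.Lam R))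
      (fun ω => ∃ S ∈ (G.Lam r).powerset, X ω ∧ C ω = (S : Set V))
      (fun ω => ¬ Cl ω F ⊆ (G.Lam r : Set V))
    have h3 := Pr_exists_le hp0 hp1 (G.ein (G.Lam R)) (G.Lam r).powerset
      (fun S ω => X ω ∧ C ω = ((S : Finset V) : Set V))
    have h4 := out_F G hp0 hp1 hF hR
    linarith
  · refine ⟨0, fun r R _ hR S hS => ?_⟩
    rw [hc r R S (Finset.mem_powerset.1 hS) hR]
  · have h := (ENNReal.continuous_ofReal.tendsto 0).comp (arm_sum_tendsto G hN F)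
    rw [ENNReal.ofReal_zero] at h
    exact h

private theorem Ela_touch (G : PG V) {r R : ℕ} {S : Finset V} (hS : S ⊆ G.Lam r) (hR : r + 1 ≤ R) :
    G.touch S ⊆ G.ein (G.Lam R) :=
  touch_subset_ein G (hS.trans (Lam_mono' G (by omega)))
    (fun x hx => (G.step r x (hS hx)).trans (Lam_mono' G hR))

theorem tendsto_EP (G : PG V) {p : ℝ} (hp0 : 0 ≤ p) (hp1 : p ≤ 1) (hN : G.NoPerc p) {F : Finset V}
    (hF : F.Nonempty) (A : Set V) (u : V) :
    Filter.Tendsto (fun R => ENNReal.ofReal (Pr p (G.ein (G.Lam R)) (fun ω => EP ω A F u))) Filter.atTop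
      (nhds (ZZ G p 0 F A u)) := by
  refine Ela_lim G hp0 hp1 hN (F := F) (fun ω => EP ω A F u) (fun ω => Cl ω F)
    (fun S => G.ec p F A u S) (fun ω => Set.Subset.rfl) ?_
  intro r R S hS hR
  exact ecE_eq_ec G p (Ela_touch G hS hR) (fun e he h => ein_touch G he h) F A u

theorem sum_cc (G : PG V) {p : ℝ} (hp0 : 0 ≤ p) (hp1 : p ≤ 1) (hN : G.NoPerc p) {F : Finset V}
    (hF : F.Nonempty) (A : Set V) (x x2 : V) :
    ∑' S : Finset V, ENNReal.ofReal (G.cc p F A (x, x2) S) = ENNReal.ofReal p * ZZ G p 0 F A x := by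
  have h1 : Filter.Tendsto (fun R => ENNReal.ofReal (Pr p (G.ein (G.Lam R)) (fun ω => EP ω A F x)))
      Filter.atTop (nhds (∑' S : Finset V, ENNReal.ofReal (Pr p (G.touch S)
        (fun ω => EP ω A F x ∧ Cl (ω.erase s(x, x2)) F = (S : Set V))))) := by
    refine Ela_lim G hp0 hp1 hN (F := F) (fun ω => EP ω A F x) (fun ω => Cl (ω.erase s(x, x2)) F)
      (fun S => Pr p (G.touch S) (fun ω => EP ω A F x ∧ Cl (ω.erase s(x, x2)) F = (S : Set V)))
      (fun ω => Cl_mono (Finset.erase_subset _ _) F) ?_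
    intro r R S hS hR
    refine Pr_restrict p (Ela_touch G hS hR) _ fun ω hω => ?_
    refine EPCl_local (S : Set V) fun e he => ?_
    rw [Finset.mem_inter]
    exact ⟨fun h => ⟨h, ein_touch G (hω h) he⟩, fun h => h.1⟩
  have h2 := tendsto_nhds_unique h1 (tendsto_EP G hp0 hp1 hN hF A x)
  rw [← h2, ← ENNReal.tsum_mul_left]
  refine tsum_congr fun S => ?_
  rw [← ENNReal.ofReal_mul hp0]
  rfl

end IPC
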