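import Pool.Agent.Lib.MP_25e40f_pr.B.Bas

/-!
# Stream B, job Exi: the expansion identity, existence (about 120 lines)

Write `b = s(y, y')`, `ω_b = ω.erase b`.
(a) `Thru ω A F v` and not `EP ω A F v`: by definition of `EP` there are `y, y'` with `b = s(y, y') ∈ ω`, `y ∈ Cl ω_b F`, `v ∉ Cl ω_b F`, `Thru ω_b A F y`.  Call such a pair BAD FOR ω.
    Choose a bad pair such that `(ClF ω_b F).card` is minimal (`Nat.find`, or `exists_minimal`, or strong induction on the cardinality).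
(b) `y' ∉ Cl ω_b F =: S`: there is `f ∈ F` with `Conn ω_b f y` (from `y ∈ S`), and `Conn ω f v`.  If `y' ∈ S` then `S` is closed under the edges of `ω` (an edge `≠ b` by `Cl_edge`, the edge `b` because both
    endpoints are in `S`), so `v ∈ S` (`Conn_closed`), contradiction.
(c) `ConnOff ω_b S y' v`: by `connOff_of_Cl` it is enough that `Conn ω_b y' v`.  Take `Conn ω v f` (symmetric) and `Conn_erase_or` for the edge `s(y, y')`: `Conn ω_b v f` is impossible (then `v ∈ S`), `Conn ω_b v y` is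
    impossible (`y ∈ S`, then `v ∈ S` by `Cl_conn` and symmetry), so `Conn ω_b v y'`.
(d) `EP ω_b A F y`: the first half `Thru ω_b A F y` is given.  Let `c = s(z, z') ∈ ω_b` with `z ∈ Cl (ω_b.erase c) F`, `y ∉ Cl (ω_b.erase c) F`, and suppose `Thru (ω_b.erase c) A F z`.
    `(ω_b).erase c = (ω.erase c).erase b` (`Finset.erase_right_comm`).  `y ∉` and `y' ∉ Cl ((ω.erase c).erase b) F` (monotone, `y' ∉ S`), so by `Cl_erase_eq` `Cl (ω.erase c) F = Cl (ω_b.erase c) F`, and by `Conn_erase_of_Cl` the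
    connections from `F` are the same.  So `(z, z')` is bad for `ω`: `c ∈ ω`; `z ∈ Cl (ω.erase c) F`; `v ∉ Cl (ω.erase c) F` (it is `⊆ S`); `Thru (ω.erase c) A F z`: all connected (monotone); if `ConnOff (ω.erase c) A f z`: the
    path stays in `Cl (ω.erase c) F`, which does not contain `y, y'`, so it does not use `b`: `ConnOff (ω_b.erase c) A f z` (`Conn_transfer` with `T = Cl (ω.erase c) F` applied to `off (ω.erase c) A`), contradiction.
    Its cluster is strictly smaller: `Cl (ω.erase c) F ⊆ S` and `y ∈ S`, `y ∉ Cl (ω.erase c) F`; contradiction to the choice of the pair `(y, y')` (`Finset.card_lt_card`, `mem_ClF`).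
-/

set_option autoImplicit false
set_option linter.unusedSectionVars false

open Finset
open scoped Classical

namespace IPC

variable {V : Type} [DecidableEq V]

theorem exp_exists {ω : Finset (Sym2 V)} {A : Set V} {F : Finset V} {v : V} (h : Thru ω A F v)
    (hn : ¬ EP ω A F v) : ∃ u u', s(u, u') ∈ ω ∧ EP (ω.erase s(u, u')) A F u ∧
      ConnOff (ω.erase s(u, u')) (Cl (ω.erase s(u, u')) F) u' v := by
  have hex : ∃ n : ℕ, ∃ y y', s(y, y') ∈ ω ∧ y ∈ Cl (ω.erase s(y, y')) F ∧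
      v ∉ Cl (ω.erase s(y, y')) F ∧ Thru (ω.erase s(y, y')) A F y ∧
      (ClF (ω.erase s(y, y')) F).card = n := by
    by_contra hno
    apply hn
    refine ⟨h, fun y y' h1 h2 h3 h4 => hno ⟨_, y, y', h1, h2, h3, h4, rfl⟩⟩
  obtain ⟨y, y', hb, hy, hv, ht, hcard⟩ := Nat.find_spec hex
  have hmin := fun m (hm : m < Nat.find hex) => Nat.find_min hex hm
  rw [← hcard] at hmin
  obtain ⟨f, hf, hfy⟩ := hy
  have hy : y ∈ Cl (ω.erase s(y, y')) F := ⟨f, hf, hfy⟩
  have hy' : y' ∉ Cl (ω.erase s(y, y')) F := by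
    intro hy'
    apply hv
    refine Conn_closed (Cl (ω.erase s(y, y')) F) (subset_Cl hf) ?_ (h.1 f hf)
    intro a b hab ha
    by_cases he : s(a, b) = s(y, y')
    · rcases Sym2.eq_iff.1 he with ⟨_, h2⟩ | ⟨_, h2⟩
      · rw [h2]
        exact hy'
      · rw [h2]
        exact hy
    · exact Cl_edge ha (Finset.mem_erase.2 ⟨he, hab⟩)
  have hc : Conn (ω.erase s(y, y')) y' v := by
    rcases Conn_erase_or (a := y) (b := y') (Conn_symm (h.1 f hf)) with h1 | h1 | h1
    · exact absurd (Cl_conn (subset_Cl hf) (Conn_symm h1)) hv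
    · exact absurd (Cl_conn hy (Conn_symm h1)) hv
    · exact Conn_symm h1
  refine ⟨y, y', hb, ⟨ht, ?_⟩, connOff_of_Cl hy' hc⟩
  intro z z' hcz hz hyz hthru
  have hcomm : (ω.erase s(y, y')).erase s(z, z') = (ω.erase s(z, z')).erase s(y, y') :=
    Finset.erase_right_comm
  rw [hcomm] at hz hyz hthru
  have hsub : (ω.erase s(z, z')).erase s(y, y') ⊆ ω.erase s(y, y') :=
    Finset.erase_subset_erase _ (Finset.erase_subset _ _)
  have hy'z : y' ∉ Cl ((ω.erase s(z, z')).erase s(y, y')) F := fun h1 => hy' (Cl_mono hsub F h1)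
  have hCl : Cl (ω.erase s(z, z')) F = Cl ((ω.erase s(z, z')).erase s(y, y')) F :=
    Cl_erase_eq hyz hy'z
  have hClS : Cl (ω.erase s(z, z')) F ⊆ Cl (ω.erase s(y, y')) F := by
    rw [hCl]
    exact Cl_mono hsub F
  have hyT : y ∉ Cl (ω.erase s(z, z')) F := by
    rw [hCl]
    exact hyz
  have hy'T : y' ∉ Cl (ω.erase s(z, z')) F := by
    rw [hCl]
    exact hy'z
  have hlt : (ClF (ω.erase s(z, z')) F).card < (ClF (ω.erase s(y, y')) F).card := by
    apply Finset.card_lt_card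
    rw [Finset.ssubset_iff_of_subset]
    · exact ⟨y, mem_ClF.2 hy, fun h1 => hyT (mem_ClF.1 h1)⟩
    · intro w hw
      exact mem_ClF.2 (hClS (mem_ClF.1 hw))
  refine hmin _ hlt ⟨z, z', Finset.mem_of_mem_erase hcz, ?_, fun h1 => hv (hClS h1), ⟨?_, ?_⟩, rfl⟩
  · rw [hCl]
    exact hz
  · intro g hg
    exact Conn_mono (Finset.erase_subset _ _) (hthru.1 g hg)
  · rintro g hg ⟨hgA, hgc⟩
    apply hthru.2 g hg
    refine ⟨hgA, ?_⟩
    refine (Conn_transfer (Cl (ω.erase s(z, z')) F) ?_ (subset_Cl hg) hgc).1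
    intro a b hab ha
    have hab' := mem_off'.1 hab
    refine ⟨Cl_edge ha hab'.1, mem_off'.2 ⟨Finset.mem_erase.2 ⟨?_, hab'.1⟩, hab'.2⟩⟩
    intro he
    rcases Sym2.eq_iff.1 he with ⟨h2, _⟩ | ⟨h2, _⟩
    · exact hyT (h2 ▸ ha)
    · exact hy'T (h2 ▸ ha)

end IPC
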