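import Pool.Agent.Lib.MP_25e40f_pr.B.Lok

/-!
# Stream B, job Lok2: consequences of `EP_local` (about 150 lines)

`Cl_local`: if `ω` and `ω'` have the same edges touching `S`, then `Cl ω F = S ↔ Cl ω' F = S` (if `Cl ω F = S`, then `F ⊆ S`, `S` is closed under `ω'`-edges, and each `Conn ω f y` transfers by `Conn_transfer` with `T = S`).
`EPCl_local`: combine: if `Cl (ω.erase b) F = S` then `F ⊆ S` and an edge of `ω` leaving `S` is `b`; `ω.erase b` and `ω'.erase b` have the same edges touching `S`.   `EPec_local`: the same with `Cl ω F = S` (no edge of `ω` leaves `S`; apply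
the general lemma with `u' := u`).
`EP_erase_iff`: `u' ∉ Cl (ω.erase b) F =: S`.  Apply the general lemma to `ω`, `ω' = ω.erase b`?  They differ by `b`, which touches `S` if `u ∈ S`; so direct proof: (a) if `u ∉ S`: `Cl ω F = S` (`Cl_erase_eq`), so both sides are false
    (`EP_mem`, `F` nonempty).  (b) `u ∈ S`: for `f ∈ F`, `y ∈ S`: `Conn ω f y ↔ Conn (ω.erase b) f y`, `ConnOff ω A f y ↔ ConnOff (ω.erase b) A f y` (invariant as in (1): `c ∈ S → Conn (ω.erase b) f c`, `c ∉ S → Conn (ω.erase b) f u`), and for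
    `c = s(y, y') ≠ b`: if `u ∉ Cl (ω.erase c) F` or `u ∉ Cl ((ω.erase b).erase c) F` then `Cl (ω.erase c) F = Cl ((ω.erase c).erase b) F` and the connections from `F` are the same (`Cl_erase_eq`, `Conn_erase_of_Cl`: `u, u' ∉`), so the pivotal
    clauses for `c` agree; the pivotal clause for `c = b` in `ω`: `y ∈ {u, u'}`, `u ∉ Cl (ω.erase b) F` is false as `u ∈ S`.
-/

set_option autoImplicit false
set_option linter.unusedSectionVars false

open Finset
open scoped Classical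

namespace IPC

variable {V : Type} [DecidableEq V]

private theorem Lok2_one {ω ω' : Finset (Sym2 V)} {F : Finset V} (S : Set V)
    (hS : ∀ e : Sym2 V, (∃ a ∈ e, a ∈ S) → (e ∈ ω ↔ e ∈ ω')) (h : Cl ω F = S) : Cl ω' F = S := by
  subst h
  apply Set.Subset.antisymm
  · rintro y ⟨f, hf, hc⟩
    refine (Conn_transfer (ω := ω') (ω' := ω) (Cl ω F) ?_ (subset_Cl hf) hc).2
    intro a b hab ha
    have h1 : s(a, b) ∈ ω := (hS _ ⟨a, Sym2.mem_mk_left a b, ha⟩).2 hab
    exact ⟨Cl_edge ha h1, h1⟩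
  · rintro y ⟨f, hf, hc⟩
    refine ⟨f, hf, (Conn_transfer (ω := ω) (ω' := ω') (Cl ω F) ?_ (subset_Cl hf) hc).1⟩
    intro a b hab ha
    exact ⟨Cl_edge ha hab, (hS _ ⟨a, Sym2.mem_mk_left a b, ha⟩).1 hab⟩

private theorem Lok2_inv {α α' : Finset (Sym2 V)} {S : Set V} {u u' : V} (hu : u ∈ S)
    (hu' : u' ∉ S) (hE : ∀ a d, s(a, d) ∈ α → s(a, d) ≠ s(u, u') →
      s(a, d) ∈ α' ∧ (a ∈ S ↔ d ∈ S)) {f y : V} (hf : f ∈ S) (h : Conn α f y) :
    (y ∈ S → Conn α' f y) ∧ (y ∉ S → Conn α' f u) := by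
  induction h with
  | refl => exact ⟨fun _ => Conn_refl _ _, fun hy => absurd hf hy⟩
  | tail _ h2 ih =>
    rename_i c d _
    by_cases he : s(c, d) = s(u, u')
    · rw [Sym2.eq_iff] at he
      rcases he with ⟨h3, h4⟩ | ⟨h3, h4⟩
      · rw [h3] at ih
        rw [h4]
        exact ⟨fun h => absurd h hu', fun _ => ih.1 hu⟩
      · rw [h3] at ih
        rw [h4]
        exact ⟨fun _ => ih.2 hu', fun h => absurd hu h⟩
    · obtain ⟨h3, h4⟩ := hE c d h2 he
      exact ⟨fun hd => Conn_trans (ih.1 (h4.2 hd)) (Conn_edge h3),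
        fun hd => ih.2 (fun hc => hd (h4.1 hc))⟩

private theorem Lok2_swap {ω : Finset (Sym2 V)} {F : Finset V} {u u' a d : V}
    (h : s(a, d) ∈ ω) (he : s(a, d) ≠ s(u, u')) :
    s(a, d) ∈ ω.erase s(u, u') ∧
      (a ∈ Cl (ω.erase s(u, u')) F ↔ d ∈ Cl (ω.erase s(u, u')) F) := by
  have h1 : s(a, d) ∈ ω.erase s(u, u') := Finset.mem_erase.2 ⟨he, h⟩
  have h2 : s(d, a) ∈ ω.erase s(u, u') := by
    rw [Sym2.eq_swap (a := d) (b := a)]
    exact h1
  exact ⟨h1, fun h => Cl_edge h h1, fun h => Cl_edge h h2⟩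

/-- if neither `u` nor `u'` is in the cluster then connections off `A` do not use the edge -/
private theorem Lok2_off {ω : Finset (Sym2 V)} {A : Set V} {F : Finset V} {u u' f y : V}
    (hu : u ∉ Cl (ω.erase s(u, u')) F) (hu' : u' ∉ Cl (ω.erase s(u, u')) F) (hf : f ∈ F)
    (h : ConnOff ω A f y) : ConnOff (ω.erase s(u, u')) A f y := by
  refine ⟨h.1, (Conn_transfer (ω := off ω A) (ω' := off (ω.erase s(u, u')) A)
    (Cl (ω.erase s(u, u')) F) ?_ (subset_Cl hf) h.2).1⟩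
  intro a b hab ha
  have hne : s(a, b) ≠ s(u, u') := by
    intro he
    rw [Sym2.eq_iff] at he
    rcases he with ⟨rfl, rfl⟩ | ⟨rfl, rfl⟩
    · exact hu ha
    · exact hu' ha
  have h1 := mem_off'.1 hab
  have h2 : s(a, b) ∈ ω.erase s(u, u') := Finset.mem_erase.2 ⟨hne, h1.1⟩
  exact ⟨Cl_edge ha h2, mem_off'.2 ⟨h2, h1.2⟩⟩

theorem Cl_local {ω ω' : Finset (Sym2 V)} {F : Finset V} (S : Set V)
    (hS : ∀ e : Sym2 V, (∃ a ∈ e, a ∈ S) → (e ∈ ω ↔ e ∈ ω')) : Cl ω F = S ↔ Cl ω' F = S := by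
  exact ⟨Lok2_one S hS, Lok2_one S fun e he => (hS e he).symm⟩

theorem EPCl_local {ω ω' : Finset (Sym2 V)} {A : Set V} {F : Finset V} {u u' : V} (S : Set V)
    (hS : ∀ e : Sym2 V, (∃ a ∈ e, a ∈ S) → (e ∈ ω ↔ e ∈ ω')) :
    (EP ω A F u ∧ Cl (ω.erase s(u, u')) F = S) ↔ (EP ω' A F u ∧ Cl (ω'.erase s(u, u')) F = S) := by
  have h1 : Cl (ω.erase s(u, u')) F = S ↔ Cl (ω'.erase s(u, u')) F = S :=
    Cl_local S fun e he => by rw [Finset.mem_erase, Finset.mem_erase, hS e he]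
  rw [← h1]
  refine and_congr_left fun h => EP_local (u' := u') S (fun f hf => ?_) hS
    (fun a d had ha hd => ?_)
  · rw [← h]
    exact subset_Cl hf
  · by_contra hne
    rw [← h] at ha hd
    exact hd (Cl_edge ha (Finset.mem_erase.2 ⟨hne, had⟩))

theorem EPec_local {ω ω' : Finset (Sym2 V)} {A : Set V} {F : Finset V} {u : V} (S : Set V)
    (hS : ∀ e : Sym2 V, (∃ a ∈ e, a ∈ S) → (e ∈ ω ↔ e ∈ ω')) :
    (EP ω A F u ∧ Cl ω F = S) ↔ (EP ω' A F u ∧ Cl ω' F = S) := by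
  rw [← Cl_local (F := F) S hS]
  refine and_congr_left fun h => EP_local (u' := u) S (fun f hf => ?_) hS
    (fun a d had ha hd => ?_)
  · rw [← h]
    exact subset_Cl hf
  · exfalso
    rw [← h] at ha hd
    exact hd (Cl_edge ha had)

theorem EP_erase_iff {ω : Finset (Sym2 V)} {A : Set V} {F : Finset V} (hF : F.Nonempty) {u u' : V}
    (hu : u' ∉ Cl (ω.erase s(u, u')) F) : EP ω A F u ↔ EP (ω.erase s(u, u')) A F u := by
  by_cases huS : u ∈ Cl (ω.erase s(u, u')) F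
  swap
  · have h1 := Cl_erase_eq huS hu
    constructor
    · intro h
      have h2 := EP_mem hF h
      rw [h1] at h2
      exact absurd h2 huS
    · intro h
      exact absurd (EP_mem hF h) huS
  have hK1 : ∀ f ∈ F, Conn ω f u → Conn (ω.erase s(u, u')) f u := fun f hf h =>
    (Lok2_inv (S := Cl (ω.erase s(u, u')) F) huS hu (fun a d had hne => Lok2_swap had hne)
      (subset_Cl hf) h).1 huS
  have hK2 : ∀ f ∈ F, ConnOff ω A f u → ConnOff (ω.erase s(u, u')) A f u := fun f hf h =>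
    ⟨h.1, (Lok2_inv (α := off ω A) (α' := off (ω.erase s(u, u')) A)
      (S := Cl (ω.erase s(u, u')) F) huS hu (fun a d had hne =>
        ⟨mem_off'.2 ⟨(Lok2_swap (F := F) (mem_off'.1 had).1 hne).1, (mem_off'.1 had).2⟩,
          (Lok2_swap (mem_off'.1 had).1 hne).2⟩) (subset_Cl hf) h.2).1 huS⟩
  have hsub : ∀ c : Sym2 V, ((ω.erase s(u, u')).erase c) = ((ω.erase c).erase s(u, u')) :=
    fun c => Finset.erase_right_comm
  have hu1 : ∀ c : Sym2 V, u' ∉ Cl ((ω.erase c).erase s(u, u')) F := by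
    intro c h
    rw [← hsub] at h
    exact hu (Cl_mono (Finset.erase_subset _ _) F h)
  constructor
  · rintro ⟨⟨h1, h2⟩, h3⟩
    refine ⟨⟨fun f hf => hK1 f hf (h1 f hf), fun f hf h => h2 f hf
      (connOff_mono (Finset.erase_subset _ _) h)⟩, ?_⟩
    intro y y' hc hy hu2 hT
    rw [hsub] at hy hu2 hT
    have hc' := Finset.mem_of_mem_erase hc
    have heq := Cl_erase_eq (ω := ω.erase s(y, y')) hu2 (hu1 _)
    refine h3 y y' hc' (by rw [heq]; exact hy) (by rw [heq]; exact hu2) ?_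
    refine ⟨fun f hf => Conn_mono (Finset.erase_subset _ _) (hT.1 f hf), fun f hf h => ?_⟩
    exact hT.2 f hf (Lok2_off hu2 (hu1 _) hf h)
  · rintro ⟨⟨h1, h2⟩, h3⟩
    refine ⟨⟨fun f hf => Conn_mono (Finset.erase_subset _ _) (h1 f hf), fun f hf h => h2 f hf
      (hK2 f hf h)⟩, ?_⟩
    intro y y' hc hy hu2 hT
    by_cases he : s(y, y') = s(u, u')
    · rw [he] at hu2
      exact hu2 huS
    · have hc' : s(y, y') ∈ ω.erase s(u, u') := Finset.mem_erase.2 ⟨he, hc⟩
      have hu3 : u ∉ Cl ((ω.erase s(y, y')).erase s(u, u')) F := fun h =>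
        hu2 (Cl_mono (Finset.erase_subset _ _) F h)
      have heq := Cl_erase_eq (ω := ω.erase s(y, y')) hu3 (hu1 _)
      refine h3 y y' hc' (by rw [hsub, ← heq]; exact hy) (by rw [hsub]; exact hu3) ?_
      rw [hsub]
      refine ⟨fun f hf => Conn_erase_of_Cl hu3 (hu1 _) hf (hT.1 f hf), fun f hf h => ?_⟩
      exact hT.2 f hf (connOff_mono (Finset.erase_subset _ _) h)

end IPC
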