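import Pool.Agent.Lib.MP_25e40f_pr.B.Idn
import Pool.Agent.Lib.MP_25e40f_pr.B.Lok2

/-!
# Stream B, job Fna: probability of the event of one dart (about 170 lines)

`q = (u, u') ∈ darts E`, `b = s(u, u') ∈ E`.  `𝒮` any predicate on vertex sets.  Put `ω_b = ω.erase b`, `E_b = E.erase b`.
(1) `GD ω A F v q ∧ 𝒮 (Cl ω_b F)` is `b ∈ ω ∧ X (ω.erase b)` with `X ω := EP ω A F u ∧ ConnOff ω (Cl ω F) u' v ∧ 𝒮 (Cl ω F)`.  `Pr_open`: its probability is `p * Pr p E_b X`.
(2) `X ω ↔ ∃ S ∈ (F ∪ VV E).powerset.filter 𝒮, (EP ω A F u ∧ Cl ω F = S) ∧ ConnOff ω S u' v` for `ω ⊆ E_b` (take `S = ClF ω F`, `coe_ClF`, `Cl_subset`, `VV_mono`), and these events are pairwise exclusive (`Cl ω F = S = S'`, `Finset.coe_injective`):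
    `Pr_exists_eq`: `Pr p E_b X = ∑ S, Pr p E_b (fun ω => (EP ω A F u ∧ Cl ω F = S) ∧ ConnOff ω S u' v)`.
(3) For each `S`:
    (3a) if `u' ∈ S`: both sides are `0` (`ConnOff ω S u' v` is false: `Pr_false`).
    (3b) if `u' ∉ S`, `u ∉ S`: the left side is `0` (`EP_mem`: `u ∈ Cl ω F = S`); on the right `ccE = 0`: if `EP ω A F u` and `Cl (ω.erase b) F = S` then by `EP_erase_iff` `EP (ω.erase b) A F u`, so `u ∈ S`.
    (3c) `u' ∉ S`, `u ∈ S`: `Pr_indep` with `E₁ = E_b \ off E_b S` (edges of `E_b` touching `S`), `E₂ = off E_b S`: disjoint; the first event is unchanged by `ω ↦ ω ∩ E₁` (`EPec_local` with the vertex set `S`: an edge of `ω ⊆ E_b`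
         touching `S` is in `E₁`), the second by `ω ↦ ω ∩ E₂` (`off (ω ∩ E₂) S = off ω S`: `off_inter`, and `off ω S ⊆ off E_b S`).
         Then `Pr p E_b (EP ω A F u ∧ Cl ω F = S) = Pr p E (fun ω => EP (ω.erase b) A F u ∧ Cl (ω.erase b) F = S)` (`Pr_erase`) `= Pr p E (fun ω => EP ω A F u ∧ Cl (ω.erase b) F = S)` (`EP_erase_iff`, as `u' ∉ S`),
         and `Pr p E_b (ConnOff ω S u' v) = Pr p E (ConnOff ω S u' v)` (`Pr_restrict`, `E_b ⊆ E`: `off (ω ∩ E_b) S = off ω S` since `b` touches `S`).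
(4) Sum up: `Pr = p * ∑ ... = ∑ ccE ... * ...`.
-/

set_option autoImplicit false
set_option linter.unusedSectionVars false

noncomputable section

open Finset
open scoped Classical

namespace IPC

variable {V : Type} [DecidableEq V]

/-- coefficients of the expansion in a finite edge set -/
def ccE (p : ℝ) (E : Finset (Sym2 V)) (F : Finset V) (A : Set V) (q : V × V) (S : Finset V) : ℝ :=
  p * Pr p E (fun ω => EP ω A F q.1 ∧ Cl (ω.erase s(q.1, q.2)) F = (S : Set V))

private theorem Fna_sub {ω E : Finset (Sym2 V)} (h : ω ⊆ E) (S : Set V) : off ω S = ω ∩ off E S := by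
  rw [← off_inter, Finset.inter_eq_left.2 h]

private theorem Fna_erase (E : Finset (Sym2 V)) {S : Set V} {u u' : V} (hu : u ∈ S) :
    off (E.erase s(u, u')) S = off E S := by
  ext e
  rw [mem_off, mem_off, Finset.mem_erase]
  constructor
  · rintro ⟨⟨_, h1⟩, h2⟩
    exact ⟨h1, h2⟩
  · rintro ⟨h1, h2⟩
    refine ⟨⟨?_, h1⟩, h2⟩
    rintro rfl
    exact h2 u (Sym2.mem_mk_left u u') hu

private theorem Fna_one (p : ℝ) (E : Finset (Sym2 V)) {F : Finset V} (hF : F.Nonempty) (A : Set V) (u u' v : V)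
    (S : Finset V) :
    Pr p (E.erase s(u, u')) (fun ω => (EP ω A F u ∧ Cl ω F = (S : Set V)) ∧ ConnOff ω (S : Set V) u' v) =
      Pr p E (fun ω => EP ω A F u ∧ Cl (ω.erase s(u, u')) F = (S : Set V)) *
        Pr p E (fun ω => ConnOff ω (S : Set V) u' v) := by
  by_cases hu' : u' ∈ (S : Set V)
  · rw [Pr_false p (E.erase s(u, u')) (fun ω _ h => h.2.1 hu'),
      Pr_false p E (A := fun ω => ConnOff ω (S : Set V) u' v) (fun ω _ h => h.1 hu'), mul_zero]
  by_cases hu : u ∈ (S : Set V)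
  · have hsub : (E.erase s(u, u')) ⊆ E := Finset.erase_subset _ _
    rw [Pr_indep p (E₁ := E.erase s(u, u') \ off (E.erase s(u, u')) (S : Set V))
      (E₂ := off (E.erase s(u, u')) (S : Set V)) Finset.sdiff_subset (off_subset _ _) Finset.sdiff_disjoint
      (fun ω => EP ω A F u ∧ Cl ω F = (S : Set V)) (fun ω => ConnOff ω (S : Set V) u' v)]
    · have h1 : Pr p (E.erase s(u, u')) (fun ω => EP ω A F u ∧ Cl ω F = (S : Set V)) =
          Pr p E (fun ω => EP ω A F u ∧ Cl (ω.erase s(u, u')) F = (S : Set V)) := by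
        rw [← Pr_erase p E s(u, u')]
        refine Pr_congr p E fun ω _ => ?_
        constructor
        · rintro ⟨h1, h2⟩
          exact ⟨(EP_erase_iff hF (by rw [h2]; exact hu')).2 h1, h2⟩
        · rintro ⟨h1, h2⟩
          exact ⟨(EP_erase_iff hF (by rw [h2]; exact hu')).1 h1, h2⟩
      have h2 : Pr p E (fun ω => ConnOff ω (S : Set V) u' v) =
          Pr p (E.erase s(u, u')) (fun ω => ConnOff ω (S : Set V) u' v) := by
        refine Pr_restrict p hsub _ fun ω hω => ?_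
        have e : off ω (S : Set V) = off (ω ∩ E.erase s(u, u')) (S : Set V) := by
          rw [off_inter, Fna_erase E hu]
          exact Fna_sub hω _
        show _ ∧ _ ↔ _ ∧ _
        rw [e]
      rw [h1, h2]
    · intro ω hω
      refine EPec_local (S : Set V) fun e he => ?_
      rw [Finset.mem_inter, Finset.mem_sdiff, mem_off]
      constructor
      · intro h
        refine ⟨h, hω h, fun h' => ?_⟩
        obtain ⟨a, ha, haS⟩ := he
        exact h'.2 a ha haS
      · exact fun h => h.1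
    · intro ω hω
      have e : off ω (S : Set V) = off (ω ∩ off (E.erase s(u, u')) (S : Set V)) (S : Set V) := by
        rw [off_inter, off_off]
        exact Fna_sub hω _
      show _ ∧ _ ↔ _ ∧ _
      rw [← e]
  · rw [Pr_false p (E.erase s(u, u')) (A := fun ω => (EP ω A F u ∧ Cl ω F = (S : Set V)) ∧
        ConnOff ω (S : Set V) u' v) (fun ω _ h => hu (h.1.2 ▸ EP_mem hF h.1.1)),
      Pr_false p E (A := fun ω => EP ω A F u ∧ Cl (ω.erase s(u, u')) F = (S : Set V)) ?_, zero_mul]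
    rintro ω _ ⟨h1, h2⟩
    have h3 := (EP_erase_iff hF (by rw [h2]; exact hu')).1 h1
    exact hu (h2 ▸ EP_mem hF h3)

theorem Pr_GD (p : ℝ) (E : Finset (Sym2 V)) {F : Finset V} (hF : F.Nonempty) (A : Set V) (v : V) {q : V × V}
    (hq : q ∈ darts E) (𝒮 : Set V → Prop) :
    Pr p E (fun ω => GD ω A F v q ∧ 𝒮 (Cl (ω.erase s(q.1, q.2)) F)) =
      ∑ S ∈ (F ∪ VV E).powerset.filter (fun S : Finset V => 𝒮 (S : Set V)),
        ccE p E F A q S * Pr p E (fun ω => ConnOff ω (S : Set V) q.2 v) := by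
  obtain ⟨u, u'⟩ := q
  have hb : s(u, u') ∈ E := mem_darts.1 hq
  have h1 : Pr p E (fun ω => GD ω A F v (u, u') ∧ 𝒮 (Cl (ω.erase s(u, u')) F)) =
      p * Pr p (E.erase s(u, u')) (fun ω => EP ω A F u ∧ ConnOff ω (Cl ω F) u' v ∧ 𝒮 (Cl ω F)) := by
    rw [← Pr_open p hb]
    refine Pr_congr p E fun ω _ => ?_
    constructor
    · rintro ⟨⟨h1, h2, h3⟩, h4⟩
      exact ⟨h1, h2, h3, h4⟩
    · rintro ⟨h1, h2, h3, h4⟩
      exact ⟨⟨h1, h2, h3⟩, h4⟩
  have h2 : Pr p (E.erase s(u, u')) (fun ω => EP ω A F u ∧ ConnOff ω (Cl ω F) u' v ∧ 𝒮 (Cl ω F)) =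
      ∑ S ∈ (F ∪ VV E).powerset.filter (fun S : Finset V => 𝒮 (S : Set V)),
        Pr p (E.erase s(u, u')) (fun ω => (EP ω A F u ∧ Cl ω F = (S : Set V)) ∧
          ConnOff ω (S : Set V) u' v) := by
    rw [← Pr_exists_eq]
    · refine Pr_congr p _ fun ω hω => ?_
      constructor
      · rintro ⟨h1, h2, h3⟩
        refine ⟨ClF ω F, ?_, ?_⟩
        · rw [Finset.mem_filter, Finset.mem_powerset, coe_ClF]
          refine ⟨?_, h3⟩
          refine (Finset.filter_subset _ _).trans (Finset.union_subset_union_right ?_)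
          exact VV_mono (hω.trans (Finset.erase_subset _ _))
        · rw [coe_ClF]
          exact ⟨⟨h1, rfl⟩, h2⟩
      · rintro ⟨S, hS, ⟨h1, h2⟩, h3⟩
        rw [h2]
        exact ⟨h1, h3, (Finset.mem_filter.1 hS).2⟩
    · intro ω _ S _ T _ h3 h4
      exact Finset.coe_injective (h3.1.2.symm.trans h4.1.2)
  show Pr p E (fun ω => GD ω A F v (u, u') ∧ 𝒮 (Cl (ω.erase s(u, u')) F)) = _
  rw [h1, h2, Finset.mul_sum]
  refine Finset.sum_congr rfl fun S _ => ?_
  rw [Fna_one p E hF A u u' v S, ← mul_assoc]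
  rfl

end IPC
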