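import Pool.Agent.Lib.MP_25e40f_pr.B.Fna

/-!
# Stream B, job Fnb: the finite one step identities (about 110 lines)

`Pr_exists_GD`: `Pr_exists_eq` (`GD_unique`) and `Pr_GD` for each dart.
`Pr_thru`: `Thru ω A F v ↔ EP ω A F v ∨ ∃ q ∈ darts E, GD ω A F v q` for `ω ⊆ E` (`thru_iff`, `mem_darts`), the two are exclusive (`GD_not_EP`): `Pr_split` with `B = EP`, then `Pr_exists_GD` with `𝒮 = fun _ => True`.
`Pr_connOff`: `Conn ω w v ↔ Thru ω A {w} v ∨ ConnOff ω A w v`, exclusive (`Thru` for `F = {w}`: `AllConn ω {w} v ↔ Conn ω w v`; `connOff_conn`).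
`ccE_nonneg`, `ccE_zero`: if `q.1 ∉ S` and `q.2 ∉ S` then `ccE = 0` (`EP ω A F q.1`, `Cl (ω.erase b) F = S`, `q.2 ∉ S`: `EP_erase_iff`, `EP_mem`: `q.1 ∈ S`).
-/

set_option autoImplicit false
set_option linter.unusedSectionVars false

noncomputable section

open Finset
open scoped Classical

namespace IPC

variable {V : Type} [DecidableEq V]

theorem Pr_exists_GD (p : ℝ) (E : Finset (Sym2 V)) {F : Finset V} (hF : F.Nonempty) (A : Set V) (v : V)
    (𝒮 : Set V → Prop) :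
    Pr p E (fun ω => ∃ q ∈ darts E, GD ω A F v q ∧ 𝒮 (Cl (ω.erase s(q.1, q.2)) F)) =
      ∑ q ∈ darts E, ∑ S ∈ (F ∪ VV E).powerset.filter (fun S : Finset V => 𝒮 (S : Set V)),
        ccE p E F A q S * Pr p E (fun ω => ConnOff ω (S : Set V) q.2 v) := by
  rw [Pr_exists_eq p E (darts E) (fun q ω => GD ω A F v q ∧ 𝒮 (Cl (ω.erase s(q.1, q.2)) F))
    (fun ω _ k _ l _ hk hl => GD_unique hF hk.1 hl.1)]
  exact Finset.sum_congr rfl fun q hq => Pr_GD p E hF A v hq 𝒮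

theorem Pr_thru (p : ℝ) (E : Finset (Sym2 V)) {F : Finset V} (hF : F.Nonempty) (A : Set V) (v : V) :
    Pr p E (fun ω => Thru ω A F v) = Pr p E (fun ω => EP ω A F v) +
      Pr p E (fun ω => ∃ q ∈ darts E, GD ω A F v q) := by
  rw [Pr_split p E (fun ω => Thru ω A F v) (fun ω => EP ω A F v)]
  have h1 : Pr p E (fun ω => Thru ω A F v ∧ EP ω A F v) = Pr p E (fun ω => EP ω A F v) :=
    Pr_congr p E fun ω _ => ⟨fun h => h.2, fun h => ⟨h.1, h⟩⟩
  have h2 : Pr p E (fun ω => Thru ω A F v ∧ ¬ EP ω A F v) =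
      Pr p E (fun ω => ∃ q ∈ darts E, GD ω A F v q) := by
    refine Pr_congr p E fun ω hω => ?_
    constructor
    · rintro ⟨h3, h4⟩
      rcases (thru_iff hF).1 h3 with h5 | ⟨q, h5⟩
      · exact absurd h5 h4
      · exact ⟨q, mem_darts.2 (hω h5.1), h5⟩
    · rintro ⟨q, _, h3⟩
      exact ⟨GD_thru hF h3, GD_not_EP hF h3⟩
  rw [h1, h2]

theorem Pr_connOff (p : ℝ) (E : Finset (Sym2 V)) (A : Set V) (w v : V) :
    Pr p E (fun ω => ConnOff ω A w v) =
      Pr p E (fun ω => Conn ω w v) - Pr p E (fun ω => Thru ω A {w} v) := by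
  rw [Pr_split p E (fun ω => Conn ω w v) (fun ω => Thru ω A {w} v)]
  have h1 : Pr p E (fun ω => Conn ω w v ∧ Thru ω A {w} v) = Pr p E (fun ω => Thru ω A {w} v) :=
    Pr_congr p E fun ω _ => ⟨fun h => h.2, fun h => ⟨h.1 w (Finset.mem_singleton_self w), h⟩⟩
  have h2 : Pr p E (fun ω => Conn ω w v ∧ ¬ Thru ω A {w} v) =
      Pr p E (fun ω => ConnOff ω A w v) := by
    refine Pr_congr p E fun ω _ => ?_
    constructor
    · rintro ⟨h3, h4⟩
      by_contra h5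
      refine h4 ⟨fun f hf => ?_, fun f hf => ?_⟩
      · rw [Finset.mem_singleton.1 hf]
        exact h3
      · rw [Finset.mem_singleton.1 hf]
        exact h5
    · intro h3
      exact ⟨connOff_conn h3, fun h4 => h4.2 w (Finset.mem_singleton_self w) h3⟩
  rw [h1, h2, add_sub_cancel_left]

theorem ccE_nonneg {p : ℝ} (hp0 : 0 ≤ p) (hp1 : p ≤ 1) (E : Finset (Sym2 V)) (F : Finset V) (A : Set V)
    (q : V × V) (S : Finset V) : 0 ≤ ccE p E F A q S := by
  exact mul_nonneg hp0 (Pr_nonneg hp0 hp1 E _)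

theorem ccE_zero (p : ℝ) (E : Finset (Sym2 V)) {F : Finset V} (hF : F.Nonempty) (A : Set V)
    {q : V × V} {S : Finset V} (h1 : q.1 ∉ S) (h2 : q.2 ∉ S) : ccE p E F A q S = 0 := by
  unfold ccE
  rw [Pr_false p E (A := fun ω => EP ω A F q.1 ∧ Cl (ω.erase s(q.1, q.2)) F = (S : Set V)) ?_,
    mul_zero]
  rintro ω _ ⟨h3, h4⟩
  have h5 := (EP_erase_iff hF (by rw [h4]; exact h2)).1 h3
  have h6 := EP_mem hF h5
  rw [h4] at h6
  exact h1 h6

end IPC
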