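import Pool.Agent.Lib.MP_25e40f_pr.B.Bas

/-!
# Stream B, job Uni: the expansion identity, uniqueness (about 130 lines)

`b = s(u, u')`, `c = s(z, z')`, `S = Cl (ω.erase b) F`, `S' = Cl (ω.erase c) F`.  `u ∈ S`, `z ∈ S'` (`EP_mem`), `u' ∉ S`, `z' ∉ S'`, `v ∉ S`, `v ∉ S'` (`connOff_notMem`).
* `b = c`: then `S = S'`, and `u = z`, `u' = z'` or `u = z'`, `u' = z` (`Sym2.eq_iff`); the second is impossible (`u ∈ S`, `z' ∉ S`).
* `b ≠ c`.  `c ∈ ω.erase b` and `b ∈ ω.erase c`.
  (1) either both `z, z' ∈ S` or both `∉ S` (`Cl_edge` for `c ∈ ω.erase b`); either both `u, u' ∈ S'` or both `∉ S'`.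
  (2) Case `z, z' ∉ S`.  Put `ω₂ = (ω.erase b).erase c = (ω.erase c).erase b`.  `Cl (ω.erase b) F = Cl ω₂ F` (`Cl_erase_eq`, applied to `ω.erase b` and `s(z, z')`; `z, z' ∉ Cl ω₂ F ⊆ S`).  The pair `(u, u')` contradicts
      `EP (ω.erase c) A F z`: `b ∈ ω.erase c`; `u ∈ Cl ω₂ F = S`; `z ∉ Cl ω₂ F`; and `Thru ω₂ A F u` holds: from `Thru (ω.erase b) A F u` (first half of the `EP` of `u`): `Conn (ω.erase b) f u` gives `Conn ω₂ f u`
      (`Conn_erase_of_Cl`), and `ConnOff ω₂ A f u` would give `ConnOff (ω.erase b) A f u` (monotone).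
  (3) Case `u, u' ∉ S'`: symmetric (exchange the roles; state (2) as a private lemma).
  (4) Case `z, z' ∈ S` and `u, u' ∈ S'`: `ConnOff (ω.erase b) S u' v` is a connection in edges without endpoint in `S`; `c` has its endpoints in `S`, so these edges are in `(ω.erase c)`; `u' ∈ S'`, so `v ∈ S'` (`Cl_conn`), contradiction.
-/

set_option autoImplicit false
set_option linter.unusedSectionVars false

open Finset
open scoped Classical

namespace IPC

variable {V : Type} [DecidableEq V]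

private theorem Uni_case {ω : Finset (Sym2 V)} {A : Set V} {F : Finset V} (hF : F.Nonempty) {u u' z z' : V}
    (hb : s(u, u') ∈ ω) (hne : s(u, u') ≠ s(z, z')) (h1 : EP (ω.erase s(u, u')) A F u)
    (h3 : EP (ω.erase s(z, z')) A F z)
    (hz : z ∉ Cl (ω.erase s(u, u')) F) (hz' : z' ∉ Cl (ω.erase s(u, u')) F) : False := by
  have hx : z ∉ Cl ((ω.erase s(u, u')).erase s(z, z')) F :=
    fun h => hz (Cl_mono (Finset.erase_subset _ _) F h)
  have hy : z' ∉ Cl ((ω.erase s(u, u')).erase s(z, z')) F :=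
    fun h => hz' (Cl_mono (Finset.erase_subset _ _) F h)
  have hC := Cl_erase_eq hx hy
  have hu : u ∈ Cl ((ω.erase s(u, u')).erase s(z, z')) F := by
    rw [← hC]
    exact EP_mem hF h1
  have hcomm : (ω.erase s(z, z')).erase s(u, u') = (ω.erase s(u, u')).erase s(z, z') :=
    Finset.erase_right_comm
  have h5 := h3.2 u u' (Finset.mem_erase.2 ⟨hne, hb⟩)
  rw [hcomm] at h5
  refine h5 hu hx ⟨?_, ?_⟩
  · intro f hf
    exact Conn_erase_of_Cl hx hy hf (h1.1.1 f hf)
  · intro f hf hoff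
    exact h1.1.2 f hf (connOff_mono (Finset.erase_subset _ _) hoff)

theorem exp_unique {ω : Finset (Sym2 V)} {A : Set V} {F : Finset V} (hF : F.Nonempty) {u u' z z' v : V}
    (hb : s(u, u') ∈ ω) (h1 : EP (ω.erase s(u, u')) A F u)
    (h2 : ConnOff (ω.erase s(u, u')) (Cl (ω.erase s(u, u')) F) u' v)
    (hc : s(z, z') ∈ ω) (h3 : EP (ω.erase s(z, z')) A F z)
    (h4 : ConnOff (ω.erase s(z, z')) (Cl (ω.erase s(z, z')) F) z' v) : u = z ∧ u' = z' := by
  by_cases he : s(u, u') = s(z, z')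
  · have he' := he
    rw [Sym2.eq_iff] at he
    rcases he with he | ⟨h5, h6⟩
    · exact he
    · exfalso
      have h7 := EP_mem hF h1
      rw [he', h5] at h7
      exact h4.1 h7
  · exfalso
    have hcb : s(z, z') ∈ ω.erase s(u, u') := Finset.mem_erase.2 ⟨fun h => he h.symm, hc⟩
    have hbc : s(u, u') ∈ ω.erase s(z, z') := Finset.mem_erase.2 ⟨he, hb⟩
    by_cases hz : z ∈ Cl (ω.erase s(u, u')) F
    · by_cases hu : u ∈ Cl (ω.erase s(z, z')) F
      · have hu' : u' ∈ Cl (ω.erase s(z, z')) F := Cl_edge hu hbc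
        have hsub : off (ω.erase s(u, u')) (Cl (ω.erase s(u, u')) F) ⊆ ω.erase s(z, z') := by
          intro e hE
          rw [mem_off] at hE
          refine Finset.mem_erase.2 ⟨?_, Finset.mem_of_mem_erase hE.1⟩
          rintro rfl
          exact hE.2 z (Sym2.mem_mk_left z z') hz
        exact connOff_notMem h4 (Cl_conn hu' (Conn_mono hsub h2.2))
      · have hu' : u' ∉ Cl (ω.erase s(z, z')) F := fun h => hu (Cl_edge h ((Sym2.eq_swap (a := u) (b := u')) ▸ hbc))
        exact Uni_case hF hc (fun h => he h.symm) h3 h1 hu hu'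
    · have hz' : z' ∉ Cl (ω.erase s(u, u')) F := fun h => hz (Cl_edge h ((Sym2.eq_swap (a := z) (b := z')) ▸ hcb))
      exact Uni_case hF hb he h1 h3 hz hz'

end IPC
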