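import Pool.Agent.Lib.MP_25e40f_pr.B.Exi
import Pool.Agent.Lib.MP_25e40f_pr.B.Cnv
import Pool.Agent.Lib.MP_25e40f_pr.B.Uni

/-! Stream B: the deterministic expansion identity (all proved from Exi, Cnv, Uni). -/

set_option autoImplicit false
set_option linter.unusedSectionVars false

noncomputable section

open Finset
open scoped Classical

namespace IPC

variable {V : Type} [DecidableEq V]

/-- the event of the dart `q` in the expansion -/
def GD (ω : Finset (Sym2 V)) (A : Set V) (F : Finset V) (v : V) (q : V × V) : Prop :=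
  s(q.1, q.2) ∈ ω ∧ EP (ω.erase s(q.1, q.2)) A F q.1 ∧
    ConnOff (ω.erase s(q.1, q.2)) (Cl (ω.erase s(q.1, q.2)) F) q.2 v

theorem thru_iff {ω : Finset (Sym2 V)} {A : Set V} {F : Finset V} (hF : F.Nonempty) {v : V} :
    Thru ω A F v ↔ EP ω A F v ∨ ∃ q : V × V, GD ω A F v q := by
  constructor
  · intro h
    by_cases hE : EP ω A F v
    · exact Or.inl hE
    · obtain ⟨u, u', h1, h2, h3⟩ := exp_exists h hE
      exact Or.inr ⟨(u, u'), h1, h2, h3⟩
  · rintro (h | ⟨q, h1, h2, h3⟩)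
    · exact h.1
    · exact (exp_converse hF h1 h2 h3).1

theorem GD_unique {ω : Finset (Sym2 V)} {A : Set V} {F : Finset V} (hF : F.Nonempty) {v : V} {q q' : V × V}
    (h : GD ω A F v q) (h' : GD ω A F v q') : q = q' := by
  obtain ⟨h1, h2, h3⟩ := h
  obtain ⟨h4, h5, h6⟩ := h'
  obtain ⟨h7, h8⟩ := exp_unique hF h1 h2 h3 h4 h5 h6
  exact Prod.ext h7 h8

theorem GD_not_EP {ω : Finset (Sym2 V)} {A : Set V} {F : Finset V} (hF : F.Nonempty) {v : V} {q : V × V}
    (h : GD ω A F v q) : ¬ EP ω A F v := (exp_converse hF h.1 h.2.1 h.2.2).2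

theorem GD_thru {ω : Finset (Sym2 V)} {A : Set V} {F : Finset V} (hF : F.Nonempty) {v : V} {q : V × V}
    (h : GD ω A F v q) : Thru ω A F v := (exp_converse hF h.1 h.2.1 h.2.2).1

end IPC
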