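import Pool.Agent.Lib.MP_25e40f_pr.B.Fnb
import Pool.Agent.Lib.MP_25e40f_pr.ZDef

/-!
# Stream B, job Loc: the coefficients are local (about 150 lines)

`mem_ein`, `mem_touch`: unfold (`Finset.mem_biUnion`, `mem_image`, `Sym2.eq_iff`; `G.symm`).
`touch_subset_ein`: if `S ⊆ D` and all neighbours of points of `S` are in `D`.   `ein_touch`: an edge of `G.ein D` with an endpoint in `S` is in `G.touch S`.
`ccE_eq_cc`, `ecE_eq_ec`: `Pr_restrict` with `E₁ = G.touch S ⊆ E`; for `ω ⊆ E` the events for `ω` and `ω ∩ G.touch S` agree by `EPCl_local`, `EPec_local` (`S` as a set; an edge of `ω` touching `S` is in `G.touch S`).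
`Lam_mono'`: `G.Lam r ⊆ G.Lam R` for `r ≤ R` (induction, `G.mono`).   `ein_mono`.
`cc_nonneg`, `ec_nonneg`: `Pr_nonneg`.
`darts_ein`: `q ∈ darts (G.ein D) ↔ q.1 ∈ D ∧ q.2 ∈ D ∧ q.2 ∈ G.nb q.1` (`mem_darts`, `mem_ein`).
-/

set_option autoImplicit false
set_option linter.unusedSectionVars false

noncomputable section

open Finset
open scoped Classical

namespace IPC

variable {V : Type} [DecidableEq V]

theorem mem_ein (G : PG V) {D : Finset V} {x y : V} :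
    s(x, y) ∈ G.ein D ↔ x ∈ D ∧ y ∈ D ∧ y ∈ G.nb x := by
  unfold PG.ein
  rw [Finset.mem_biUnion]
  constructor
  · rintro ⟨a, ha, h⟩
    obtain ⟨b, hb, h1⟩ := Finset.mem_image.1 h
    obtain ⟨hb1, hb2⟩ := Finset.mem_inter.1 hb
    rcases Sym2.eq_iff.1 h1 with ⟨rfl, rfl⟩ | ⟨rfl, rfl⟩
    · exact ⟨ha, hb2, hb1⟩
    · exact ⟨hb2, ha, G.symm _ _ hb1⟩
  · rintro ⟨hx, hy, h⟩
    exact ⟨x, hx, Finset.mem_image.2 ⟨y, Finset.mem_inter.2 ⟨h, hy⟩, rfl⟩⟩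

theorem mem_touch (G : PG V) {S : Finset V} {x y : V} :
    s(x, y) ∈ G.touch S ↔ (x ∈ S ∨ y ∈ S) ∧ y ∈ G.nb x := by
  unfold PG.touch
  rw [Finset.mem_biUnion]
  constructor
  · rintro ⟨a, ha, h⟩
    obtain ⟨b, hb, h1⟩ := Finset.mem_image.1 h
    rcases Sym2.eq_iff.1 h1 with ⟨rfl, rfl⟩ | ⟨rfl, rfl⟩
    · exact ⟨Or.inl ha, hb⟩
    · exact ⟨Or.inr ha, G.symm _ _ hb⟩
  · rintro ⟨hx | hy, h⟩
    · exact ⟨x, hx, Finset.mem_image.2 ⟨y, h, rfl⟩⟩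
    · exact ⟨y, hy, Finset.mem_image.2 ⟨x, G.symm _ _ h, Sym2.eq_swap⟩⟩

theorem ein_mono (G : PG V) {D D' : Finset V} (h : D ⊆ D') : G.ein D ⊆ G.ein D' := by
  intro e he
  induction e using Sym2.ind with
  | _ x y =>
    rw [mem_ein] at he ⊢
    exact ⟨h he.1, h he.2.1, he.2.2⟩

theorem Lam_mono' (G : PG V) {r R : ℕ} (h : r ≤ R) : G.Lam r ⊆ G.Lam R := by
  induction h with
  | refl => exact Finset.Subset.refl _
  | step _ ih => exact ih.trans (G.mono _)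

theorem darts_ein (G : PG V) {D : Finset V} {q : V × V} :
    q ∈ darts (G.ein D) ↔ q.1 ∈ D ∧ q.2 ∈ D ∧ q.2 ∈ G.nb q.1 := by
  rw [mem_darts, mem_ein]

theorem touch_subset_ein (G : PG V) {S D : Finset V} (h1 : S ⊆ D) (h2 : ∀ x ∈ S, G.nb x ⊆ D) :
    G.touch S ⊆ G.ein D := by
  intro e he
  induction e using Sym2.ind with
  | _ x y =>
    rw [mem_touch] at he
    rw [mem_ein]
    rcases he with ⟨hx | hy, h⟩
    · exact ⟨h1 hx, h2 x hx h, h⟩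
    · exact ⟨h2 y hy (G.symm _ _ h), h1 hy, h⟩

theorem ein_touch (G : PG V) {S D : Finset V} {e : Sym2 V} (he : e ∈ G.ein D) (h : ∃ a ∈ e, a ∈ (S : Set V)) :
    e ∈ G.touch S := by
  induction e using Sym2.ind with
  | _ x y =>
    rw [mem_ein] at he
    rw [mem_touch]
    obtain ⟨a, ha, haS⟩ := h
    rcases Sym2.mem_iff.1 ha with rfl | rfl
    · exact ⟨Or.inl haS, he.2.2⟩
    · exact ⟨Or.inr haS, he.2.2⟩

theorem ccE_eq_cc (G : PG V) (p : ℝ) {E : Finset (Sym2 V)} {S : Finset V} (h1 : G.touch S ⊆ E)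
    (h2 : ∀ e ∈ E, (∃ a ∈ e, a ∈ (S : Set V)) → e ∈ G.touch S) (F : Finset V) (A : Set V) (q : V × V) :
    ccE p E F A q S = G.cc p F A q S := by
  unfold ccE PG.cc
  rw [Pr_restrict p h1 (fun ω => EP ω A F q.1 ∧ Cl (ω.erase s(q.1, q.2)) F = (S : Set V))]
  intro ω hω
  exact EPCl_local (u' := q.2) (S : Set V) fun e he =>
    ⟨fun h => Finset.mem_inter.2 ⟨h, h2 e (hω h) he⟩, fun h => (Finset.mem_inter.1 h).1⟩

theorem ecE_eq_ec (G : PG V) (p : ℝ) {E : Finset (Sym2 V)} {S : Finset V} (h1 : G.touch S ⊆ E)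
    (h2 : ∀ e ∈ E, (∃ a ∈ e, a ∈ (S : Set V)) → e ∈ G.touch S) (F : Finset V) (A : Set V) (u : V) :
    Pr p E (fun ω => EP ω A F u ∧ Cl ω F = (S : Set V)) = G.ec p F A u S := by
  unfold PG.ec
  rw [Pr_restrict p h1 (fun ω => EP ω A F u ∧ Cl ω F = (S : Set V))]
  intro ω hω
  exact EPec_local (S : Set V) fun e he =>
    ⟨fun h => Finset.mem_inter.2 ⟨h, h2 e (hω h) he⟩, fun h => (Finset.mem_inter.1 h).1⟩

theorem cc_nonneg (G : PG V) {p : ℝ} (hp0 : 0 ≤ p) (hp1 : p ≤ 1) (F : Finset V) (A : Set V) (q : V × V)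
    (S : Finset V) : 0 ≤ G.cc p F A q S := by
  exact mul_nonneg hp0 (Pr_nonneg hp0 hp1 _ _)

theorem ec_nonneg (G : PG V) {p : ℝ} (hp0 : 0 ≤ p) (hp1 : p ≤ 1) (F : Finset V) (A : Set V) (u : V)
    (S : Finset V) : 0 ≤ G.ec p F A u S := by
  exact Pr_nonneg hp0 hp1 _ _

end IPC
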