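import Pool.Agent.Lib.MP_25e40f_pr.B.Bas

/-!
# Stream B, job Lok: the event `EP ω A F u` only depends on the edges touching the cluster of `F` (about 130 lines)

Hypotheses: `S` a set of vertices containing `F`; `ω` and `ω'` have the same edges touching `S` (`hS`); the only edge of `ω` which may leave `S` is `b = s(u, u')` (`hx`).  So the same holds for `ω'`.
Let `W = S ∪ {u}`.
(1) CONNECTIONS (private lemma, for all edge sets `η, η'` with: same edges touching `S`, the edges of `η` leaving `S` are all equal to `s(u, u')`): for `f ∈ S`, `y ∈ W`: `Conn η f y → Conn η' f y`.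
    Proof: case `u ∉ S`: an edge leaving `S` goes from `u' ∈ S` to `u`.  Invariant along the path `f → c`: if `c ∈ S ∪ {u}` then `Conn η' f c`; if `c ∉ S ∪ {u}` then `Conn η' f u`.  Step `c → d` by `e = s(c, d) ∈ η`:
      `c ∈ S`: `e ∈ η'` (touches `S`), and `d ∈ S ∪ {u}` (leaving `S` means `e = b`, `d = u`): fine.  `c = u`: if `d ∈ S`, `e` touches `S`, fine; if `d = u` fine; otherwise the invariant for `d` is `Conn η' f u`, given.
      `c ∉ S ∪ {u}`: `d ∈ S` is impossible (`e` leaves `S`, so `e = b`, `c ∈ {u, u'}`, `c ∉ S`, so `c = u` as `d ∈ S`.. [if `c = u'` then `d = u ∈ S`, impossible]); `d = u`: `Conn η' f u` is given; else given.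
    case `u ∈ S`: an edge leaving `S` goes from `u` to `u'`.  Invariant: if `c ∈ S` then `Conn η' f c`, and if `c ∉ S` then `Conn η' f u`.  Step: `c ∈ S`, `d ∈ S`: `e ∈ η'`.  `c ∈ S`, `d ∉ S`: `e = b`, `c = u`, given.
      `c ∉ S`, `d ∈ S`: `e = b`, `d = u`: given.  `c ∉ S`, `d ∉ S`: given.   (`W = S`.)
    [The two cases can be treated together with the invariant: `(c ∈ S ∪ {u} → Conn η' f c) ∧ (c ∉ S → Conn η' f u)`; for `c ∈ S`, nothing about `u`.]
(2) Apply (1) to `η = ω, η' = ω'`; to `η = off ω A, η' = off ω' A` (their edges touching `S` are the same); and to `η = ω.erase c, η' = ω'.erase c`, `off (ω.erase c) A`, ...  Everything is symmetric in `ω, ω'` (both satisfy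
    `hx`, as an edge leaving `S` touches `S`).  So it is enough to prove `EP ω A F u → EP ω' A F u`.
(3) `Thru ω A F u ↔ Thru ω' A F u` by (1) with `y = u ∈ W`.
(4) Pivotal clause: suppose `c = s(y, y') ∈ ω'`, `y ∈ Cl (ω'.erase c) F`, `u ∉ Cl (ω'.erase c) F`, `Thru (ω'.erase c) A F y`.  Claim `Cl (ω'.erase c) F ⊆ S`: starting in `F ⊆ S`, the cluster can leave `S` only by the edge `b`, from `u` or
    to `u`, but `u ∉ Cl (ω'.erase c) F` (`Conn_closed`-type argument with `T = S ∩ Cl (ω'.erase c) F`: `a ∈ T`, `s(a, d) ∈ ω'.erase c`: `d ∈ Cl`; if `d ∉ S` then `s(a, d) = s(u, u')`, so `a = u` or `d = u`, impossible).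
    So `y ∈ S`, `c` touches `S`, so `c ∈ ω`.  By (1) (with `ω'.erase c, ω.erase c`): `y ∈ Cl (ω.erase c) F`, `u ∉ Cl (ω.erase c) F`, `Thru (ω.erase c) A F y` (`y ∈ S ⊆ W`).  Contradiction to `EP ω A F u`.
-/

set_option autoImplicit false
set_option linter.unusedSectionVars false

open Finset
open scoped Classical

namespace IPC

variable {V : Type} [DecidableEq V]

/-- the same edges touching `S`, and the only edge which may leave `S` is `s(u, u')` -/
private def Lok_R (S : Set V) (u u' : V) (η η' : Finset (Sym2 V)) : Prop :=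
  (∀ a d, a ∈ S → (s(a, d) ∈ η ↔ s(a, d) ∈ η')) ∧
    ∀ a d, s(a, d) ∈ η → a ∈ S → d ∉ S → s(a, d) = s(u, u')

private theorem Lok_symm {S : Set V} {u u' : V} {η η' : Finset (Sym2 V)} (h : Lok_R S u u' η η') :
    Lok_R S u u' η' η :=
  ⟨fun a d ha => (h.1 a d ha).symm, fun a d had ha hd => h.2 a d ((h.1 a d ha).2 had) ha hd⟩

private theorem Lok_off {S : Set V} {u u' : V} {η η' : Finset (Sym2 V)} (h : Lok_R S u u' η η')
    (A : Set V) : Lok_R S u u' (off η A) (off η' A) := by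
  constructor
  · intro a d ha
    rw [mem_off', mem_off', h.1 a d ha]
  · intro a d had ha hd
    exact h.2 a d (mem_off'.1 had).1 ha hd

private theorem Lok_erase {S : Set V} {u u' : V} {η η' : Finset (Sym2 V)} (h : Lok_R S u u' η η')
    (c : Sym2 V) : Lok_R S u u' (η.erase c) (η'.erase c) := by
  constructor
  · intro a d ha
    rw [Finset.mem_erase, Finset.mem_erase, h.1 a d ha]
  · intro a d had ha hd
    exact h.2 a d (Finset.mem_of_mem_erase had) ha hd

private theorem Lok_conn {S : Set V} {u u' : V} {η η' : Finset (Sym2 V)} (h : Lok_R S u u' η η')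
    {f y : V} (hf : f ∈ S) (hy : y ∈ S ∨ y = u) (hc : Conn η f y) : Conn η' f y := by
  have key : (y ∈ S ∨ y = u → Conn η' f y) ∧ (y ∉ S → Conn η' f u) := by
    clear hy
    induction hc with
    | refl => exact ⟨fun _ => Conn_refl _ _, fun h0 => absurd hf h0⟩
    | tail _ h2 ih =>
      rename_i c d _
      obtain ⟨i1, i2⟩ := ih
      by_cases hcS : c ∈ S
      · have hcf := i1 (Or.inl hcS)
        have hcd : Conn η' f d := Conn_trans hcf (Conn_edge ((h.1 c d hcS).1 h2))
        refine ⟨fun _ => hcd, fun hd => ?_⟩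
        have he := h.2 c d h2 hcS hd
        rw [Sym2.eq_iff] at he
        rcases he with ⟨rfl, rfl⟩ | ⟨rfl, rfl⟩
        · exact hcf
        · exact hcd
      · have hfu := i2 hcS
        refine ⟨fun hd => ?_, fun _ => hfu⟩
        rcases hd with hd | hd
        · have h3 : s(d, c) ∈ η := by
            rw [Sym2.eq_swap]
            exact h2
          have he := h.2 d c h3 hd hcS
          rw [Sym2.eq_iff] at he
          rcases he with ⟨rfl, rfl⟩ | ⟨rfl, rfl⟩
          · exact hfu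
          · refine Conn_trans hfu (Conn_edge ?_)
            rw [Sym2.eq_swap]
            exact (h.1 _ _ hd).1 h3
        · rw [hd]
          exact hfu
  exact key.1 hy

private theorem Lok_thru {S : Set V} {u u' : V} {η η' : Finset (Sym2 V)} (h : Lok_R S u u' η η')
    {A : Set V} {F : Finset V} (hFS : ∀ f ∈ F, f ∈ S) {y : V} (hy : y ∈ S ∨ y = u)
    (hT : Thru η A F y) : Thru η' A F y :=
  ⟨fun f hf => Lok_conn h (hFS f hf) hy (hT.1 f hf), fun f hf hc =>
    hT.2 f hf ⟨hc.1, Lok_conn (Lok_symm (Lok_off h A)) (hFS f hf) hy hc.2⟩⟩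

private theorem Lok_EP {S : Set V} {u u' : V} {ω ω' : Finset (Sym2 V)} (h : Lok_R S u u' ω ω')
    {A : Set V} {F : Finset V} (hFS : ∀ f ∈ F, f ∈ S) (hE : EP ω A F u) : EP ω' A F u := by
  refine ⟨Lok_thru h hFS (Or.inr rfl) hE.1, ?_⟩
  intro y y' hyy hy hu hT
  have hsub : ∀ z ∈ Cl (ω'.erase s(y, y')) F, z ∈ S := by
    rintro z ⟨f, hf, hc⟩
    refine (Conn_closed (S ∩ Cl (ω'.erase s(y, y')) F) ⟨hFS f hf, subset_Cl hf⟩ ?_ hc).1
    rintro a d had ⟨ha1, ha2⟩
    have hd := Cl_edge ha2 had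
    refine ⟨?_, hd⟩
    by_contra hdS
    have he := (Lok_symm h).2 a d (Finset.mem_of_mem_erase had) ha1 hdS
    rw [Sym2.eq_iff] at he
    rcases he with ⟨rfl, rfl⟩ | ⟨rfl, rfl⟩
    · exact hu ha2
    · exact hu hd
  have hyS : y ∈ S := hsub y hy
  have h1 : s(y, y') ∈ ω := (h.1 y y' hyS).2 hyy
  have h2 : Lok_R S u u' (ω'.erase s(y, y')) (ω.erase s(y, y')) := Lok_erase (Lok_symm h) _
  refine hE.2 y y' h1 ?_ ?_ (Lok_thru h2 hFS (Or.inl hyS) hT)
  · obtain ⟨f, hf, hc⟩ := hy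
    exact ⟨f, hf, Lok_conn h2 (hFS f hf) (Or.inl hyS) hc⟩
  · rintro ⟨f, hf, hc⟩
    exact hu ⟨f, hf, Lok_conn (Lok_symm h2) (hFS f hf) (Or.inr rfl) hc⟩

theorem EP_local {ω ω' : Finset (Sym2 V)} {A : Set V} {F : Finset V} {u u' : V} (S : Set V)
    (hFS : ∀ f ∈ F, f ∈ S) (hS : ∀ e : Sym2 V, (∃ a ∈ e, a ∈ S) → (e ∈ ω ↔ e ∈ ω'))
    (hx : ∀ a d, s(a, d) ∈ ω → a ∈ S → d ∉ S → s(a, d) = s(u, u')) : EP ω A F u ↔ EP ω' A F u := by
  have h : Lok_R S u u' ω ω' := ⟨fun a d ha => hS _ ⟨a, Sym2.mem_mk_left a d, ha⟩, hx⟩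
  exact ⟨Lok_EP h hFS, Lok_EP (Lok_symm h) hFS⟩

end IPC
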