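import Pool.Agent.Lib.MP_25e40f_pr.B.Bas

/-!
# Stream B, job Sya: transport of the events by a bijection of the vertices (about 130 lines)

`φ : V ≃ V`, `M ω := ω.image (Sym2.map φ)` (`Sym2.map φ` is injective: `Sym2.map.injective φ.injective`).
`Conn_image` (A/Cnn.lean): `Conn (M ω) (φ x) (φ y) ↔ Conn ω x y`.
`M_erase`: `(M ω).erase s(φ x, φ y) = M (ω.erase s(x, y))` (`Finset.image_erase`, injectivity; `Sym2.map_mk`/`Sym2.map_pair_eq`).
`M_off`: `off (M ω) (φ '' A) = M (off ω A)`.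
`Cl_M`: `Cl (M ω) (F.image φ) = φ '' Cl ω F` (surjectivity of `φ`).
`ConnOff_M`, `AllConn_M`, `Thru_M`, `EP_M`: unfold; a quantifier `∀ y y'` over `V` can be written `∀ φ z, φ z'` by surjectivity (`φ.surjective.forall`).
-/

set_option autoImplicit false
set_option linter.unusedSectionVars false

noncomputable section

open Finset
open scoped Classical

namespace IPC

variable {V : Type} [DecidableEq V]

/-- image of a configuration -/
def MM (φ : V ≃ V) (ω : Finset (Sym2 V)) : Finset (Sym2 V) := ω.image (Sym2.map φ)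

private theorem Sya_inj (φ : V ≃ V) (a b x y : V) : s(φ a, φ b) = s(φ x, φ y) ↔ s(a, b) = s(x, y) := by
  rw [Sym2.eq_iff, Sym2.eq_iff, φ.injective.eq_iff, φ.injective.eq_iff, φ.injective.eq_iff, φ.injective.eq_iff]

private theorem Sya_ext (φ : V ≃ V) {S T : Finset (Sym2 V)} (h : ∀ a b, s(φ a, φ b) ∈ S ↔ s(φ a, φ b) ∈ T) :
    S = T := by
  ext e
  induction e using Sym2.ind with
  | _ x y =>
    obtain ⟨a, rfl⟩ := φ.surjective x
    obtain ⟨b, rfl⟩ := φ.surjective y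
    exact h a b

private theorem Sya_off (ω : Finset (Sym2 V)) (A : Set V) (a b : V) :
    s(a, b) ∈ off ω A ↔ s(a, b) ∈ ω ∧ a ∉ A ∧ b ∉ A := by
  unfold off
  rw [Finset.mem_filter]
  constructor
  · rintro ⟨h1, h2⟩
    exact ⟨h1, h2 a (Sym2.mem_mk_left a b), h2 b (Sym2.mem_mk_right a b)⟩
  · rintro ⟨h1, h2, h3⟩
    refine ⟨h1, fun c hc => ?_⟩
    rcases Sym2.mem_iff.1 hc with rfl | rfl
    · exact h2
    · exact h3

private theorem Sya_mem (φ : V ≃ V) (A : Set V) (a : V) : φ a ∈ φ '' A ↔ a ∈ A :=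
  φ.injective.mem_set_image

private theorem Sya_memF (φ : V ≃ V) (F : Finset V) (a : V) : φ a ∈ F.image φ ↔ a ∈ F :=
  φ.injective.mem_finset_image

theorem mem_MM (φ : V ≃ V) (ω : Finset (Sym2 V)) (x y : V) : s(φ x, φ y) ∈ MM φ ω ↔ s(x, y) ∈ ω := by
  unfold MM
  rw [Finset.mem_image]
  constructor
  · rintro ⟨e, he, h⟩
    induction e using Sym2.ind with
    | _ a b =>
      have h' : s(φ a, φ b) = s(φ x, φ y) := h
      rw [Sya_inj] at h'
      rwa [← h']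
  · intro h
    exact ⟨s(x, y), h, rfl⟩

theorem MM_erase (φ : V ≃ V) (ω : Finset (Sym2 V)) (x y : V) :
    (MM φ ω).erase s(φ x, φ y) = MM φ (ω.erase s(x, y)) := by
  refine Sya_ext φ (fun a b => ?_)
  rw [Finset.mem_erase, mem_MM, mem_MM, Finset.mem_erase, ne_eq, ne_eq, Sya_inj]

theorem MM_off (φ : V ≃ V) (ω : Finset (Sym2 V)) (A : Set V) : off (MM φ ω) (φ '' A) = MM φ (off ω A) := by
  refine Sya_ext φ (fun a b => ?_)
  rw [Sya_off, mem_MM, mem_MM, Sya_off, Sya_mem, Sya_mem]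

theorem Conn_MM (φ : V ≃ V) (ω : Finset (Sym2 V)) (x y : V) : Conn (MM φ ω) (φ x) (φ y) ↔ Conn ω x y := by
  exact Conn_image φ φ.injective ω x y

theorem ConnOff_MM (φ : V ≃ V) (ω : Finset (Sym2 V)) (A : Set V) (x y : V) :
    ConnOff (MM φ ω) (φ '' A) (φ x) (φ y) ↔ ConnOff ω A x y := by
  unfold ConnOff
  rw [MM_off, Conn_MM, Sya_mem]

theorem Cl_MM (φ : V ≃ V) (ω : Finset (Sym2 V)) (F : Finset V) : Cl (MM φ ω) (F.image φ) = φ '' Cl ω F := by
  ext y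
  obtain ⟨y, rfl⟩ := φ.surjective y
  rw [Sya_mem]
  show (∃ f ∈ F.image φ, Conn (MM φ ω) f (φ y)) ↔ ∃ f ∈ F, Conn ω f y
  constructor
  · rintro ⟨f, hf, h⟩
    obtain ⟨f, rfl⟩ := φ.surjective f
    exact ⟨f, (Sya_memF φ F f).1 hf, (Conn_MM φ ω f y).1 h⟩
  · rintro ⟨f, hf, h⟩
    exact ⟨φ f, (Sya_memF φ F f).2 hf, (Conn_MM φ ω f y).2 h⟩

theorem Thru_MM (φ : V ≃ V) (ω : Finset (Sym2 V)) (A : Set V) (F : Finset V) (y : V) :
    Thru (MM φ ω) (φ '' A) (F.image φ) (φ y) ↔ Thru ω A F y := by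
  unfold Thru AllConn
  constructor
  · rintro ⟨h1, h2⟩
    exact ⟨fun f hf => (Conn_MM φ ω f y).1 (h1 (φ f) ((Sya_memF φ F f).2 hf)),
      fun f hf h => h2 (φ f) ((Sya_memF φ F f).2 hf) ((ConnOff_MM φ ω A f y).2 h)⟩
  · rintro ⟨h1, h2⟩
    refine ⟨fun f hf => ?_, fun f hf => ?_⟩
    · obtain ⟨f, rfl⟩ := φ.surjective f
      exact (Conn_MM φ ω f y).2 (h1 f ((Sya_memF φ F f).1 hf))
    · obtain ⟨f, rfl⟩ := φ.surjective f
      exact fun h => h2 f ((Sya_memF φ F f).1 hf) ((ConnOff_MM φ ω A f y).1 h)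

theorem EP_MM (φ : V ≃ V) (ω : Finset (Sym2 V)) (A : Set V) (F : Finset V) (u : V) :
    EP (MM φ ω) (φ '' A) (F.image φ) (φ u) ↔ EP ω A F u := by
  unfold EP
  rw [Thru_MM]
  refine and_congr Iff.rfl ?_
  constructor
  · intro h y y' h1 h2 h3 h4
    refine h (φ y) (φ y') ((mem_MM φ ω y y').2 h1) ?_ ?_ ?_
    · rw [MM_erase, Cl_MM, Sya_mem]
      exact h2
    · rw [MM_erase, Cl_MM, Sya_mem]
      exact h3
    · rw [MM_erase, Thru_MM]
      exact h4
  · intro h y y'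
    obtain ⟨y, rfl⟩ := φ.surjective y
    obtain ⟨y', rfl⟩ := φ.surjective y'
    rw [mem_MM, MM_erase, Cl_MM, Sya_mem, Sya_mem, Thru_MM]
    exact h y y'

end IPC
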