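import Pool.Agent.Lib.MP_25e40f_pr.B.Sya
import Pool.Agent.Lib.MP_25e40f_pr.ZDef

/-!
# Stream B, job Syb: the coefficients of the expansion are invariant under automorphisms of the graph (about 150 lines)

`hφ : ∀ x, G.nb (φ x) = (G.nb x).image φ` (the automorphism need not respect the exhaustion `Lam`).
`touch_MM`: `G.touch (S.image φ) = MM φ (G.touch S)` (unfold; `Finset.biUnion_image`, `Finset.image_biUnion`, `Finset.image_image`, `Sym2.map_pair_eq`).
`ec_auto`, `cc_auto`: `EE_image` (A/Bas.lean) with the injective map `Sym2.map φ` for `E = G.touch S`: `Pr p (MM φ E) X = Pr p E (fun ω => X (MM φ ω))`; then `EP_MM`, `Cl_MM`, `MM_erase`, and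
  `φ '' T = ((S.image φ : Finset V) : Set V) ↔ T = S` (`Finset.coe_image`, `Set.image_injective`: `φ.injective.image_injective.eq_iff`).
`ZZ_auto`: induction on `n` for all `F, A`.  `n = 0`: `∑' S, f S = ∑' S, f (S.image φ)` (the map `S ↦ S.image φ` is a bijection of `Finset V`: `Equiv.finsetCongr φ`, `Equiv.tsum_eq`; `Finset.map_eq_image`).
  `n + 1`: reindex `x, x2` by `φ` (`Equiv.tsum_eq φ`), `S` by `φ.finsetCongr`; `φ x2 ∈ G.nb (φ x) ↔ x2 ∈ G.nb x`; `cc_auto`; `{φ x2} = ({x2} : Finset V).image φ` and `((S.image φ : Finset V) : Set V) = φ '' S`: induction hypothesis.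
`gF_auto`, `gg_auto`: `φ '' univ = univ`.
-/

set_option autoImplicit false
set_option linter.unusedSectionVars false

noncomputable section

open Finset
open scoped Classical

namespace IPC

variable {V : Type} [DecidableEq V]

private theorem Syb_Pr (p : ℝ) (φ : V ≃ V) (E : Finset (Sym2 V)) (X : Finset (Sym2 V) → Prop) :
    Pr p (MM φ E) X = Pr p E (fun ω => X (MM φ ω)) := by
  unfold Pr MM
  exact EE_image p E (Sym2.map φ) (Function.Injective.injOn (Sym2.map.injective φ.injective)) _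

private theorem Syb_tsum (φ : V ≃ V) (f : Finset V → ENNReal) :
    ∑' S : Finset V, f S = ∑' S : Finset V, f (S.image φ) := by
  rw [← (Equiv.finsetCongr φ).tsum_eq f]
  refine tsum_congr fun S => ?_
  rw [Equiv.finsetCongr_apply, Finset.map_eq_image]
  rfl

private theorem Syb_set (φ : V ≃ V) (T : Set V) (S : Finset V) :
    φ '' T = ((S.image φ : Finset V) : Set V) ↔ T = (S : Set V) := by
  rw [Finset.coe_image]
  exact φ.injective.image_injective.eq_iff

theorem touch_MM (G : PG V) (φ : V ≃ V) (hφ : ∀ x, G.nb (φ x) = (G.nb x).image φ) (S : Finset V) :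
    G.touch (S.image φ) = MM φ (G.touch S) := by
  unfold PG.touch MM
  rw [Finset.image_biUnion, Finset.biUnion_image]
  refine Finset.biUnion_congr rfl fun a _ => ?_
  rw [hφ, Finset.image_image, Finset.image_image]
  rfl

theorem ec_auto (G : PG V) (p : ℝ) (φ : V ≃ V) (hφ : ∀ x, G.nb (φ x) = (G.nb x).image φ) (F : Finset V)
    (A : Set V) (u : V) (S : Finset V) : G.ec p (F.image φ) (φ '' A) (φ u) (S.image φ) = G.ec p F A u S := by
  unfold PG.ec
  rw [touch_MM G φ hφ, Syb_Pr]
  refine Pr_congr p _ fun ω _ => ?_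
  rw [EP_MM, Cl_MM, Syb_set]

theorem cc_auto (G : PG V) (p : ℝ) (φ : V ≃ V) (hφ : ∀ x, G.nb (φ x) = (G.nb x).image φ) (F : Finset V)
    (A : Set V) (x x2 : V) (S : Finset V) :
    G.cc p (F.image φ) (φ '' A) (φ x, φ x2) (S.image φ) = G.cc p F A (x, x2) S := by
  unfold PG.cc
  rw [touch_MM G φ hφ, Syb_Pr]
  congr 1
  refine Pr_congr p _ fun ω _ => ?_
  show (EP (MM φ ω) (φ '' A) (F.image φ) (φ x) ∧
    Cl ((MM φ ω).erase s(φ x, φ x2)) (F.image φ) = ((S.image φ : Finset V) : Set V)) ↔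
    (EP ω A F x ∧ Cl (ω.erase s(x, x2)) F = (S : Set V))
  rw [EP_MM, MM_erase, Cl_MM, Syb_set]

theorem ZZ_auto (G : PG V) (p : ℝ) (φ : V ≃ V) (hφ : ∀ x, G.nb (φ x) = (G.nb x).image φ) (n : ℕ)
    (F : Finset V) (A : Set V) (u : V) : ZZ G p n (F.image φ) (φ '' A) (φ u) = ZZ G p n F A u := by
  induction n generalizing F A with
  | zero =>
    show ∑' S : Finset V, ENNReal.ofReal (G.ec p (F.image φ) (φ '' A) (φ u) S) =
      ∑' S : Finset V, ENNReal.ofReal (G.ec p F A u S)
    rw [Syb_tsum φ]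
    refine tsum_congr fun S => ?_
    rw [ec_auto G p φ hφ]
  | succ n ih =>
    show (∑' x, ∑' x2, if x2 ∈ G.nb x then
      ∑' S : Finset V, ENNReal.ofReal (G.cc p (F.image φ) (φ '' A) (x, x2) S) *
        ZZ G p n {x2} (S : Set V) (φ u) else 0) =
      ∑' x, ∑' x2, if x2 ∈ G.nb x then
      ∑' S : Finset V, ENNReal.ofReal (G.cc p F A (x, x2) S) * ZZ G p n {x2} (S : Set V) u else 0
    rw [← φ.tsum_eq]
    refine tsum_congr fun x => ?_
    rw [← φ.tsum_eq]
    refine tsum_congr fun x2 => ?_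
    have h1 : φ x2 ∈ G.nb (φ x) ↔ x2 ∈ G.nb x := by
      rw [hφ, Finset.mem_image]
      constructor
      · rintro ⟨a, ha, hab⟩
        rw [← φ.injective hab]
        exact ha
      · intro h
        exact ⟨x2, h, rfl⟩
    by_cases h2 : x2 ∈ G.nb x
    · rw [if_pos h2, if_pos (h1.2 h2), Syb_tsum φ]
      refine tsum_congr fun S => ?_
      have h3 := ih {x2} (S : Set V)
      rw [Finset.image_singleton] at h3
      rw [cc_auto G p φ hφ, Finset.coe_image, h3]
    · rw [if_neg h2, if_neg (fun h => h2 (h1.1 h))]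

theorem gF_auto (G : PG V) (p : ℝ) (φ : V ≃ V) (hφ : ∀ x, G.nb (φ x) = (G.nb x).image φ)
    (F : Finset V) (u : V) : gF G p (F.image φ) (φ u) = gF G p F u := by
  unfold gF
  refine tsum_congr fun n => ?_
  have h1 := ZZ_auto G p φ hφ n F Set.univ u
  rw [Set.image_univ_of_surjective φ.surjective] at h1
  rw [h1]

theorem gg_auto (G : PG V) (p : ℝ) (φ : V ≃ V) (hφ : ∀ x, G.nb (φ x) = (G.nb x).image φ)
    (x u : V) : gg G p (φ x) (φ u) = gg G p x u := by
  unfold gg
  have h1 := gF_auto G p φ hφ {x} u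
  rw [Finset.image_singleton] at h1
  exact h1

end IPC
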