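import Pool.Agent.Lib.MP_25e40f_pr.B.Bfb
import Pool.Agent.Lib.MP_25e40f_pr.B.Abr

/-!
# Stream B, job Tau: the equation `τ = g + g P τ` (about 130 lines)

`gF_weight`: `|gF u| ≤ ∑' n, (ZZ n F univ u).toReal` if that is summable; so for every `u` with `∑' n, ZZ n F univ u ≠ ⊤`: `ofReal |gF u| ≤ ∑' n, ZZ n F univ u` (`ENNReal.ofReal_tsum_of_nonneg`, `norm_tsum_le_tsum_norm`); if the
  sum over `n` is `⊤` nothing to prove (`le_top`).  Multiply by `w u`, sum over `u`, `ENNReal.tsum_comm`, `ENNReal.tsum_mul_left`.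
`VE_toReal`: finite sum of finite terms; `VE_le`: `VE p u y ≤ 1 + Δ` (`p τ ≤ 1`: `tau ≤ 1` by `inc_le_one`).
`HH_exp`: `iter_g` with `T F A = TE p F A y`, `h u = VE p u y`, `𝒞 F A = F.Nonempty`, `thru_step`; `hfin`: `∑' n, ∑' u, ZZ n F univ u * VE ≤ (∑' n, ∑' u, ZZ n F univ u) * (1 + Δ) ≠ ⊤` (`ENNReal.tsum_mul_right`, `ENNReal.mul_ne_top`).
  `TE_univ_F`, `ENNReal.toReal_ofReal` (`HH ≥ 0`: `inc_le_one`).
`tau_exp`: the case `F = {x}` (`TE_univ`, or `HH p {x} y = tau p x y`).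
-/

set_option autoImplicit false
set_option linter.unusedSectionVars false

noncomputable section

open Finset
open scoped Classical

namespace IPC

variable {V : Type} [DecidableEq V]

private theorem Tau_point (G : PG V) (p : ℝ) (F : Finset V) (u : V) :
    ENNReal.ofReal |gF G p F u| ≤ ∑' n, ZZ G p n F Set.univ u := by
  by_cases h : ∑' n, ZZ G p n F Set.univ u = ⊤
  · rw [h]
    exact le_top
  · have hs : Summable fun n => (ZZ G p n F Set.univ u).toReal := ENNReal.summable_toReal h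
    have hn : ∀ n, ‖(-1 : ℝ) ^ n * (ZZ G p n F Set.univ u).toReal‖ = (ZZ G p n F Set.univ u).toReal := by
      intro n
      rw [norm_mul, norm_pow, norm_neg, norm_one, one_pow, one_mul,
        Real.norm_of_nonneg ENNReal.toReal_nonneg]
    have h1 : |gF G p F u| ≤ ∑' n, (ZZ G p n F Set.univ u).toReal := by
      unfold gF
      rw [← Real.norm_eq_abs]
      refine (norm_tsum_le_tsum_norm ?_).trans (le_of_eq ?_)
      · simp_rw [hn]
        exact hs
      · simp_rw [hn]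
    refine (ENNReal.ofReal_le_ofReal h1).trans (le_of_eq ?_)
    rw [ENNReal.ofReal_tsum_of_nonneg (fun n => ENNReal.toReal_nonneg) hs]
    refine tsum_congr fun n => ?_
    exact ENNReal.ofReal_toReal (ENNReal.ne_top_of_tsum_ne_top h n)

theorem gF_weight (G : PG V) (p : ℝ) (F : Finset V) (w : V → ENNReal) :
    ∑' u, w u * ENNReal.ofReal |gF G p F u| ≤ ∑' n, ∑' u, w u * ZZ G p n F Set.univ u := by
  rw [ENNReal.tsum_comm]
  refine ENNReal.tsum_le_tsum fun u => ?_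
  rw [ENNReal.tsum_mul_left]
  exact mul_le_mul_right (Tau_point G p F u) _

private theorem Tau_tau (G : PG V) {p : ℝ} (hp0 : 0 ≤ p) (hp1 : p ≤ 1) (v y : V) :
    G.tau p v y ≤ 1 ∧ 0 ≤ G.tau p v y :=
  inc_le_one G hp0 hp1 (fun ω => Conn ω v y)

theorem VE_toReal (G : PG V) {p : ℝ} (hp0 : 0 ≤ p) (hp1 : p ≤ 1) (u y : V) :
    (G.VE p u y).toReal = (if u = y then 1 else 0) + ∑ v ∈ G.nb u, p * G.tau p v y := by
  unfold PG.VE
  rw [ENNReal.toReal_add]
  · congr 1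
    · split_ifs <;> simp
    · rw [ENNReal.toReal_sum (fun a _ => ENNReal.ofReal_ne_top)]
      refine Finset.sum_congr rfl fun v _ => ?_
      exact ENNReal.toReal_ofReal (mul_nonneg hp0 (Tau_tau G hp0 hp1 v y).2)
  · split_ifs <;> simp
  · exact ENNReal.sum_ne_top.2 fun a _ => ENNReal.ofReal_ne_top

theorem VE_le (G : PG V) {p : ℝ} (hp0 : 0 ≤ p) (hp1 : p ≤ 1) (Δ : ℕ) (hΔ : ∀ x, (G.nb x).card ≤ Δ) (u y : V) :
    G.VE p u y ≤ 1 + (Δ : ENNReal) := by
  unfold PG.VE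
  refine add_le_add ?_ ?_
  · split_ifs <;> simp
  · have h1 : ∀ v ∈ G.nb u, ENNReal.ofReal (p * G.tau p v y) ≤ 1 := by
      intro v _
      rw [ENNReal.ofReal_le_one]
      have h := Tau_tau G hp0 hp1 v y
      exact mul_le_one₀ hp1 h.2 h.1
    refine (Finset.sum_le_card_nsmul _ _ 1 h1).trans ?_
    rw [nsmul_eq_mul, mul_one]
    exact_mod_cast hΔ u

theorem HH_exp (G : PG V) {p : ℝ} (hp0 : 0 ≤ p) (hp1 : p ≤ 1) (hN : G.NoPerc p) (Δ : ℕ)
    (hΔ : ∀ x, (G.nb x).card ≤ Δ) {F : Finset V} (hF : F.Nonempty) (y : V)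
    (hfin : ∑' n, ∑' u, ZZ G p n F Set.univ u ≠ ⊤) :
    Summable (fun u => gF G p F u * ((if u = y then 1 else 0) + ∑ v ∈ G.nb u, p * G.tau p v y)) ∧
      G.HH p F y = ∑' u, gF G p F u * ((if u = y then 1 else 0) + ∑ v ∈ G.nb u, p * G.tau p v y) := by
  have hfin' : ∑' n, ∑' u, ZZ G p n F Set.univ u * G.VE p u y ≠ ⊤ := by
    have h1 : ∑' n, ∑' u, ZZ G p n F Set.univ u * G.VE p u y ≤
        (∑' n, ∑' u, ZZ G p n F Set.univ u) * (1 + (Δ : ENNReal)) := by
      rw [← ENNReal.tsum_mul_right]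
      refine ENNReal.tsum_le_tsum fun n => ?_
      rw [← ENNReal.tsum_mul_right]
      refine ENNReal.tsum_le_tsum fun u => ?_
      exact mul_le_mul_right (VE_le G hp0 hp1 Δ hΔ u y) _
    refine ne_top_of_le_ne_top ?_ h1
    refine ENNReal.mul_ne_top hfin ?_
    exact ENNReal.add_ne_top.2 ⟨ENNReal.one_ne_top, ENNReal.natCast_ne_top Δ⟩
  have h := iter_g G p (fun F A => G.TE p F A y) (fun u => G.VE p u y) (fun F _ => F.Nonempty)
    (fun x _ => Finset.singleton_nonempty x) (fun F A hF => thru_step G hp0 hp1 hN hF A y)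
    F Set.univ hF hfin'
  have hfun : (fun u => (∑' n : ℕ, (-1) ^ n * (ZZ G p n F Set.univ u).toReal) * (G.VE p u y).toReal) =
      fun u => gF G p F u * ((if u = y then 1 else 0) + ∑ v ∈ G.nb u, p * G.tau p v y) := by
    funext u
    rw [VE_toReal G hp0 hp1]
    rfl
  rw [hfun] at h
  refine ⟨h.1, ?_⟩
  rw [← h.2, TE_univ_F, ENNReal.toReal_ofReal]
  exact (inc_le_one G hp0 hp1 (fun ω => AllConn ω F y)).2

theorem tau_exp (G : PG V) {p : ℝ} (hp0 : 0 ≤ p) (hp1 : p ≤ 1) (hN : G.NoPerc p) (Δ : ℕ)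
    (hΔ : ∀ x, (G.nb x).card ≤ Δ) (x y : V) (hfin : ∑' n, ∑' u, ZZ G p n {x} Set.univ u ≠ ⊤) :
    Summable (fun u => gg G p x u * ((if u = y then 1 else 0) + ∑ v ∈ G.nb u, p * G.tau p v y)) ∧
      G.tau p x y = ∑' u, gg G p x u * ((if u = y then 1 else 0) + ∑ v ∈ G.nb u, p * G.tau p v y) := by
  have h := HH_exp G hp0 hp1 hN Δ hΔ (Finset.singleton_nonempty x) y hfin
  refine ⟨h.1, ?_⟩
  have h1 : G.tau p x y = G.HH p {x} y := by
    have h2 := TE_univ G p x y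
    rw [TE_univ_F] at h2
    have h3 : 0 ≤ G.HH p {x} y := (inc_le_one G hp0 hp1 (fun ω => AllConn ω {x} y)).2
    have h4 := (Tau_tau G hp0 hp1 x y).2
    have h5 := congrArg ENNReal.toReal h2
    rw [ENNReal.toReal_ofReal h3, ENNReal.toReal_ofReal h4] at h5
    exact h5.symm
  rw [h1]
  exact h.2

end IPC
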